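import Pool.Agent.Run7.h850.SS.Loc

/-!
# A shift equivalence is realised up to a power if all its diagonal blocks are
-/

set_option autoImplicit false
set_option linter.unusedSectionVars false
set_option linter.unusedVariables false

namespace Run7.h850.SS

open Matrix Pool.Agent.H812R2.SSE

/-- powers tending to infinity, or `[1]` -/
def PB (X : Obj) : Prop := Bo X.M

theorem fam_pb : Fam PB where
  iso X α _ _ e h := by
    rcases h with h | ⟨hs, h⟩
    · left
      intro K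
      obtain ⟨k0, hk⟩ := h K
      refine ⟨k0, fun k hkk i j => ?_⟩
      change K ≤ ((X.M.submatrix e.symm e.symm) ^ k) i j
      rw [← submatrix_pow]
      exact hk k hkk _ _
    · right
      refine ⟨e.symm.subsingleton, ?_⟩
      change X.M.submatrix e.symm e.symm = 1
      rw [h, Matrix.submatrix_one_equiv]
  bo X h := h

/-- the components of the complement of a set closed under predecessors -/
def subEquiv {α : Type} [Fintype α] [DecidableEq α] (A : Matrix α α ℕ) (p : α → Prop)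
    (hpred : ∀ w u, A w u ≠ 0 → p u → p w) [Fintype {u // ¬ p u}] [DecidableEq {u // ¬ p u}]
    (A1 : Matrix {u // ¬ p u} {u // ¬ p u} ℕ) (hA1 : ∀ u v, A1 u v = A u.1 v.1)
    (i : {u // ¬ p u}) : (compO A1 i).ι ≃ (compO A i.1).ι :=
  have hpredk : ∀ (k : ℕ) w u, (A ^ k) w u ≠ 0 → p u → p w := by
    intro k
    induction k with
    | zero => intro w u h hu; rwa [pow_zero_ne h]
    | succ k ih =>
      intro w u h hu
      rw [pow_succ] at h
      obtain ⟨v, h1, h2⟩ := mex h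
      exact ih w v h1 (hpred v u h2 hu)
  have hfwd : ∀ (k : ℕ) (a b : {u // ¬ p u}), (A1 ^ k) a b ≠ 0 → (A ^ k) a.1 b.1 ≠ 0 :=
    fun k a b h => sub_pow_ne A _ A1 hA1 k a b h
  have hback : ∀ (k : ℕ) (a b : {u // ¬ p u}), (A ^ k) a.1 b.1 ≠ 0 → (A1 ^ k) a b ≠ 0 := by
    intro k
    induction k with
    | zero =>
      intro a b h
      have : a = b := Subtype.ext (pow_zero_ne h)
      rw [this, pow_zero, Matrix.one_apply_eq]
      exact one_ne_zero
    | succ k ih =>
      intro a b h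
      rw [pow_succ] at h
      obtain ⟨w, h1, h2⟩ := mex h
      have hw : ¬ p w := fun hw => a.2 (hpredk k a.1 w h1 hw)
      rw [pow_succ]
      exact mne (b := ⟨w, hw⟩) (ih a ⟨w, hw⟩ h1) (by rw [hA1]; exact h2)
  have hR1 : ∀ a b : {u // ¬ p u}, Rch A1 a b ↔ Rch A a.1 b.1 := fun a b =>
    ⟨fun ⟨k, hk⟩ => ⟨k, hfwd k a b hk⟩, fun ⟨k, hk⟩ => ⟨k, hback k a b hk⟩⟩
  have hM1 : ∀ a b : {u // ¬ p u}, Mut A1 a b ↔ Mut A a.1 b.1 := fun a b =>
    and_congr (hR1 a b) (hR1 b a)
  have hcl : ∀ a b : α, ¬ p a → Mut A a b → ¬ p b := by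
    rintro a b ha ⟨⟨k, hk⟩, _⟩ hb
    exact ha (hpredk k a b hk hb)
  { toFun := fun j => ⟨j.1.1, (hM1 _ _).1 j.2⟩
    invFun := fun j => ⟨⟨j.1, hcl i.1 j.1 i.2 j.2⟩, (hM1 _ _).2 j.2⟩
    left_inv := fun j => rfl
    right_inv := fun j => rfl }

/-- all diagonal blocks of a shift equivalence are realised up to a power -/
def Hl {α β : Type} [Fintype α] [DecidableEq α] [Fintype β] [DecidableEq β]
    (A : Matrix α α ℕ) (B : Matrix β β ℕ) (R : Matrix α β ℕ) (S : Matrix β α ℕ) : Prop :=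
  ∀ i j, Rec A i → Mt A R S i j →
    ∃ t : ℕ, CH (compO A i) (compO B j) ((compO A i).M ^ t * bl A B R i j)

theorem core2 : ∀ (N : ℕ) (α β : Type) [Fintype α] [DecidableEq α] [Fintype β]
    [DecidableEq β] (A : Matrix α α ℕ) (B : Matrix β β ℕ) (_ : Gd PB A) (_ : Gd PB B)
    (R : Matrix α β ℕ) (S : Matrix β α ℕ) (l : ℕ) (_ : 1 ≤ l)
    (_ : A * R = R * B) (_ : S * A = B * S) (_ : R * S = A ^ l) (_ : S * R = B ^ l)
    (_ : Hl A B R S),
    Fintype.card α = N → ∃ t, CH ⟨α, A⟩ ⟨β, B⟩ (A ^ t * R) := by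
  intro N
  induction N using Nat.strong_induction_on with
  | _ N ih =>
  intro α β _ _ _ _ A B hA hB R S l hl hAR hSA hRS hSR hH hN
  have hP := fam_pb
  classical
  have pA := per1_of_gd hP hA
  have pB := per1_of_gd hP hB
  rcases isEmpty_or_nonempty α with hα | hα
  · have hβ : IsEmpty β := by
      constructor
      intro b
      obtain ⟨k0, hk0⟩ := pB b
      have h1 : (B ^ (l + k0)) b b ≠ 0 := hk0 _ (by omega)
      rw [pow_add, ← hSR, Matrix.mul_assoc] at h1
      obtain ⟨a, _, _⟩ := mex h1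
      exact hα.elim a
    refine ⟨0, CH.single (X := ⟨α, A⟩) (Y := ⟨β, B⟩) _ S ?_ ?_⟩
    · ext i; exact hα.elim i
    · ext i; exact hβ.elim i
  · obtain ⟨u0, _, hu0⟩ := Finset.exists_min_image (Finset.univ : Finset α)
      (fun i => (Finset.univ.filter (fun w => Rch A w i)).card)
      (by obtain ⟨a⟩ := hα; exact ⟨a, Finset.mem_univ _⟩)
    set p : α → Prop := fun u => Mut A u0 u with hp
    have hpred : ∀ w u, A w u ≠ 0 → p u → p w := by
      intro w u hwu hu
      have h1 : (Finset.univ.filter (fun x => Rch A x w)) ⊆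
          (Finset.univ.filter (fun x => Rch A x u)) := by
        intro x
        simp only [Finset.mem_filter, Finset.mem_univ, true_and]
        exact fun h => h.trans (Rch.edge hwu)
      have h2 : (Finset.univ.filter (fun x => Rch A x u)) =
          (Finset.univ.filter (fun x => Rch A x u0)) := by
        ext x
        simp only [Finset.mem_filter, Finset.mem_univ, true_and]
        exact ⟨fun h => h.trans hu.2, fun h => h.trans hu.1⟩
      have h3 : (Finset.univ.filter (fun x => Rch A x u)).card ≤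
          (Finset.univ.filter (fun x => Rch A x w)).card := by
        rw [h2]; exact hu0 w (Finset.mem_univ _)
      have h4 := Finset.eq_of_subset_of_card_le h1 h3
      have h5 : u ∈ Finset.univ.filter (fun x => Rch A x w) := by
        rw [h4]; simp [Rch.refl]
      simp only [Finset.mem_filter, Finset.mem_univ, true_and] at h5
      exact Mut.trans hu ⟨h5, Rch.edge hwu⟩
    have hpredk : ∀ (k : ℕ) w u, (A ^ k) w u ≠ 0 → p u → p w := by
      intro k
      induction k with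
      | zero => intro w u h hu; rwa [pow_zero_ne h]
      | succ k ihk =>
        intro w u h hu
        rw [pow_succ] at h
        obtain ⟨v, h1, h2⟩ := mex h
        exact ihk w v h1 (hpred v u h2 hu)
    set D : β → Prop := fun b => ∃ c, p c ∧ S b c ≠ 0 with hD
    have hRD : ∀ u b, D b → R u b ≠ 0 → p u := by
      rintro u b ⟨c, hc, hSc⟩ hR
      refine hpredk l u c ?_ hc
      rw [← hRS]; exact mne hR hSc
    have hDpred : ∀ a b, B a b ≠ 0 → D b → D a := by
      rintro a b hab ⟨c, hc, hSc⟩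
      have h1 : (B * S) a c ≠ 0 := mne hab hSc
      rw [← hSA] at h1
      obtain ⟨u, hu1, hu2⟩ := mex h1
      exact ⟨u, hpred u c hu2 hc, hu1⟩
    have hDpredk : ∀ (k : ℕ) w u, (B ^ k) w u ≠ 0 → D u → D w := by
      intro k
      induction k with
      | zero => intro w u h hu; rwa [pow_zero_ne h]
      | succ k ihk =>
        intro w u h hu
        rw [pow_succ] at h
        obtain ⟨v, h1, h2⟩ := mex h
        exact ihk w v h1 (hDpred v u h2 hu)
    have hcol : ∀ b, D b → ∃ c, p c ∧ R c b ≠ 0 := by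
      intro b hb
      obtain ⟨k0, hk0⟩ := pB b
      have h1 : (B ^ (k0 + l)) b b ≠ 0 := hk0 _ (by omega)
      rw [pow_add, ← hSR, ← Matrix.mul_assoc] at h1
      obtain ⟨c, _, h2⟩ := mex h1
      exact ⟨c, hRD c b hb h2, h2⟩
    obtain ⟨b0, hb0⟩ : ∃ b, D b := by
      obtain ⟨k0, hk0⟩ := pA u0
      have h1 : (A ^ (k0 + l)) u0 u0 ≠ 0 := hk0 _ (by omega)
      rw [pow_add, ← hRS, ← Matrix.mul_assoc] at h1
      obtain ⟨b, _, h2⟩ := mex h1
      exact ⟨b, u0, Mut.refl A u0, h2⟩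
    have hrch : ∀ b b', D b → D b' → Rch B b b' := by
      rintro b b' ⟨c, hc, hSc⟩ hb'
      obtain ⟨c', hc', hR'⟩ := hcol b' hb'
      obtain ⟨k, hk⟩ := (Mut.trans (Mut.symm hc) hc').1
      refine ⟨k + l, ?_⟩
      have e1 : S * A ^ k * R = B ^ (k + l) := by
        rw [← semiconj_pow _ _ _ hSA.symm k, Matrix.mul_assoc, hSR, ← pow_add]
      rw [← e1]
      exact mne (mne hSc hk) hR'
    have hDm : ∀ b, Mut B b0 b ↔ D b := by
      intro b
      constructor
      · rintro ⟨_, ⟨k, hk⟩⟩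
        exact hDpredk k b b0 hk hb0
      · intro h
        exact ⟨hrch b0 b hb0 h, hrch b b0 h hb0⟩
    -- the blocks
    set e : α ≃ {u // p u} ⊕ {u // ¬ p u} := (Equiv.sumCompl p).symm with he
    set f : β ≃ {b // D b} ⊕ {b // ¬ D b} := (Equiv.sumCompl D).symm with hf
    have he1 : ∀ u, e.symm (Sum.inl u) = u.1 := fun u => rfl
    have he2 : ∀ u, e.symm (Sum.inr u) = u.1 := fun u => rfl
    have hf1 : ∀ u, f.symm (Sum.inl u) = u.1 := fun u => rfl
    have hf2 : ∀ u, f.symm (Sum.inr u) = u.1 := fun u => rfl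
    set Θ : Matrix {u // p u} {u // p u} ℕ := fun u v => A u.1 v.1 with hΘ
    set m : Matrix {u // p u} {u // ¬ p u} ℕ := fun u v => A u.1 v.1 with hm
    set A1 : Matrix {u // ¬ p u} {u // ¬ p u} ℕ := fun u v => A u.1 v.1 with hA1
    set Θ' : Matrix {b // D b} {b // D b} ℕ := fun u v => B u.1 v.1 with hΘ'
    set m' : Matrix {b // D b} {b // ¬ D b} ℕ := fun u v => B u.1 v.1 with hm'
    set B1 : Matrix {b // ¬ D b} {b // ¬ D b} ℕ := fun u v => B u.1 v.1 with hB1
    set r0 : Matrix {u // p u} {b // D b} ℕ := fun u v => R u.1 v.1 with hr0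
    set r12 : Matrix {u // p u} {b // ¬ D b} ℕ := fun u v => R u.1 v.1 with hr12
    set R2 : Matrix {u // ¬ p u} {b // ¬ D b} ℕ := fun u v => R u.1 v.1 with hR2
    set s0 : Matrix {b // D b} {u // p u} ℕ := fun u v => S u.1 v.1 with hs0
    set s12 : Matrix {b // D b} {u // ¬ p u} ℕ := fun u v => S u.1 v.1 with hs12
    set S2 : Matrix {b // ¬ D b} {u // ¬ p u} ℕ := fun u v => S u.1 v.1 with hS2
    have bA : A.submatrix e.symm e.symm = fromBlocks Θ m 0 A1 := by
      ext i j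
      rcases i with i | i <;> rcases j with j | j
      · rfl
      · rfl
      · simp only [Matrix.submatrix_apply, he1, he2, Matrix.fromBlocks_apply₂₁, Matrix.zero_apply]
        by_contra hne
        exact i.2 (hpred i.1 j.1 hne j.2)
      · rfl
    have bB : B.submatrix f.symm f.symm = fromBlocks Θ' m' 0 B1 := by
      ext i j
      rcases i with i | i <;> rcases j with j | j
      · rfl
      · rfl
      · simp only [Matrix.submatrix_apply, hf1, hf2, Matrix.fromBlocks_apply₂₁, Matrix.zero_apply]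
        by_contra hne
        exact i.2 (hDpred i.1 j.1 hne j.2)
      · rfl
    have bR : R.submatrix e.symm f.symm = fromBlocks r0 r12 0 R2 := by
      ext i j
      rcases i with i | i <;> rcases j with j | j
      · rfl
      · rfl
      · simp only [Matrix.submatrix_apply, he2, hf1, Matrix.fromBlocks_apply₂₁, Matrix.zero_apply]
        by_contra hne
        exact i.2 (hRD i.1 j.1 j.2 hne)
      · rfl
    have bS : S.submatrix f.symm e.symm = fromBlocks s0 s12 0 S2 := by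
      ext i j
      rcases i with i | i <;> rcases j with j | j
      · rfl
      · rfl
      · simp only [Matrix.submatrix_apply, he1, hf2, Matrix.fromBlocks_apply₂₁, Matrix.zero_apply]
        by_contra hne
        exact i.2 ⟨j.1, j.2, hne⟩
      · rfl
    -- block relations
    have kAR : fromBlocks Θ m 0 A1 * fromBlocks r0 r12 0 R2 =
        fromBlocks r0 r12 0 R2 * fromBlocks Θ' m' 0 B1 := by
      rw [← bA, ← bR, ← bB, Matrix.submatrix_mul_equiv, Matrix.submatrix_mul_equiv, hAR]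
    have kSA : fromBlocks s0 s12 0 S2 * fromBlocks Θ m 0 A1 =
        fromBlocks Θ' m' 0 B1 * fromBlocks s0 s12 0 S2 := by
      rw [← bA, ← bS, ← bB, Matrix.submatrix_mul_equiv, Matrix.submatrix_mul_equiv, hSA]
    have kRS : fromBlocks r0 r12 0 R2 * fromBlocks s0 s12 0 S2 =
        (fromBlocks Θ m 0 A1) ^ l := by
      rw [← bA, ← bR, ← bS, Matrix.submatrix_mul_equiv, ← submatrix_pow, hRS]
    have kSR : fromBlocks s0 s12 0 S2 * fromBlocks r0 r12 0 R2 =
        (fromBlocks Θ' m' 0 B1) ^ l := by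
      rw [← bB, ← bR, ← bS, Matrix.submatrix_mul_equiv, ← submatrix_pow, hSR]
    have k1 := kAR
    have k2 := kSA
    have k3 := kRS
    have k4 := kSR
    rw [up, up] at k1 k2
    rw [up, block_pow] at k3 k4
    obtain ⟨e1, -, e2⟩ := blk k1
    obtain ⟨e3, -, e4⟩ := blk k2
    obtain ⟨e5, -, e6⟩ := blk k3
    obtain ⟨e7, -, e8⟩ := blk k4
    -- components
    have PΘ : PB ⟨{u // p u}, Θ⟩ := hP.iso (compO A u0) {u // p u} (Equiv.refl _) (hA u0)
    have PΘ' : PB ⟨{b // D b}, Θ'⟩ :=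
      hP.iso (compO B b0) {b // D b} (Equiv.subtypeEquivRight hDm) (hB b0)
    have gA1 : Gd PB A1 := gd_sub hP hA p hpred
    have gB1 : Gd PB B1 := gd_sub hP hB D hDpred
    have rec0 : Rec A u0 := by
      obtain ⟨k0, hk0⟩ := pA u0
      exact ⟨k0 + 1, by omega, hk0 _ (by omega)⟩
    have hmt0 : Mt A R S u0 b0 := by
      obtain ⟨c, hc, hSc⟩ := hb0
      obtain ⟨c', hc', hR'⟩ := hcol b0 ⟨c, hc, hSc⟩
      obtain ⟨k, hk⟩ := hc'.1
      obtain ⟨k', hk'⟩ := hc.2
      exact ⟨⟨k, mne hk hR'⟩, k', mne hSc hk'⟩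
    obtain ⟨t1, c1'⟩ := hH u0 b0 rec0 hmt0
    have c1 : CH ⟨{u // p u}, Θ⟩ ⟨{b // D b}, Θ'⟩ (Θ ^ t1 * r0) :=
      tr_ch (X := ⟨{u // p u}, Θ⟩) (Y := ⟨{b // D b}, Θ'⟩) (X' := compO A u0) (Y' := compO B b0)
        (Equiv.refl _) (Equiv.subtypeEquivRight hDm).symm (fun _ _ => rfl) (fun _ _ => rfl)
        r0 (bl A B R u0 b0) (fun _ _ => rfl) t1 c1'
    have hH1 : Hl A1 B1 R2 S2 := by
      intro i j hi hm
      have fA : ∀ (k : ℕ) (a b : {u // ¬ p u}), (A1 ^ k) a b ≠ 0 → (A ^ k) a.1 b.1 ≠ 0 :=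
        fun k a b h => sub_pow_ne A _ A1 (fun _ _ => rfl) k a b h
      have ri : Rec A i.1 := by
        obtain ⟨q, hq, h⟩ := hi
        exact ⟨q, hq, fA q i i h⟩
      have hm' : Mt A R S i.1 j.1 := by
        obtain ⟨⟨k, hk⟩, k', hk'⟩ := hm
        obtain ⟨x, h1, h2⟩ := mex hk
        obtain ⟨y, h3, h4⟩ := mex hk'
        exact ⟨⟨k, mne (b := x.1) (fA k i x h1) h2⟩, k', mne (b := y.1) h3 (fA k' y i h4)⟩
      obtain ⟨t, c⟩ := hH i.1 j.1 ri hm'
      refine ⟨t, ?_⟩
      exact tr_ch (X := compO A1 i) (Y := compO B1 j) (X' := compO A i.1) (Y' := compO B j.1)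
        (subEquiv A p hpred A1 (fun _ _ => rfl) i) (subEquiv B D hDpred B1 (fun _ _ => rfl) j)
        (fun _ _ => rfl) (fun _ _ => rfl) (bl A1 B1 R2 i j) (bl A B R i.1 j.1)
        (fun _ _ => rfl) t c
    have hcard : Fintype.card {u // ¬ p u} < N := by
      rw [← hN]
      exact Fintype.card_subtype_lt (x := u0) (by simpa using Mut.refl A u0)
    obtain ⟨t2, c2⟩ := ih _ hcard _ _ A1 B1 gA1 gB1 R2 S2 l hl e2 e4 e6 e8 hH1 rfl
    obtain ⟨T, c⟩ := glue Θ m A1 Θ' m' B1 r0 r12 R2 s0 s12 S2 l kAR kSA kRS kSR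
      (hP.bo _ PΘ) (hP.bo _ PΘ') (gw_of_gd hP gB1) t1 t2 c1 c2
    refine ⟨T, ?_⟩
    refine CH.reindex e f A B _ ?_
    rw [← Matrix.submatrix_mul_equiv (A ^ T) R e.symm e.symm f.symm, submatrix_pow, bA, bB, bR]
    exact c


/-- **Local-global principle**: a shift equivalence between matrices with mixing components is
realised up to a power if all its diagonal blocks are -/
theorem loc_glob {α β : Type} [Fintype α] [DecidableEq α] [Fintype β] [DecidableEq β]
    (A : Matrix α α ℕ) (B : Matrix β β ℕ) (hA : ∀ i, Rec A i → Bo (compO A i).M)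
    (hB : ∀ i, Rec B i → Bo (compO B i).M) (R : Matrix α β ℕ) (S : Matrix β α ℕ) (l : ℕ)
    (h : SD A B R S l) (hH : Hl A B R S) : ∃ t, CH ⟨α, A⟩ ⟨β, B⟩ (A ^ t * R) := by
  have gA : ∀ i, Wand A i ∨ Sg PB (compO A i) := by
    intro i
    by_cases hi : Rec A i
    · exact Or.inr ⟨compO A i, 1, hA i hi, CH.refl _⟩
    · left
      intro k hk
      by_contra hne
      exact hi ⟨k, hk, hne⟩
  have gB : ∀ i, Wand B i ∨ Sg PB (compO B i) := by
    intro i
    by_cases hi : Rec B i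
    · exact Or.inr ⟨compO B i, 1, hB i hi, CH.refl _⟩
    · left
      intro k hk
      by_contra hne
      exact hi ⟨k, hk, hne⟩
  obtain ⟨X', ρ, sA, cA⟩ := reduce3 fam_pb _ α A gA rfl
  obtain ⟨Y', ρ', sB, cB⟩ := reduce3 fam_pb _ β B gB rfl
  obtain ⟨ρs, a, hρ, cA'⟩ := sd_of_ch cA
  obtain ⟨ρs', b, hρ', cB'⟩ := sd_of_ch cB
  have hall : SD X'.M Y'.M (ρs * (R * ρ')) (ρs' * S * ρ) (a + (l + b)) :=
    hρ.symm.trans (h.trans hρ')
  have hall' : SD X'.M Y'.M (X'.M ^ 1 * (ρs * (R * ρ'))) (ρs' * S * ρ) (1 + (a + (l + b))) :=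
    hall.pow 1
  have hH' : Hl X'.M Y'.M (X'.M ^ 1 * (ρs * (R * ρ'))) (ρs' * S * ρ) := by
    intro i' j' hi' hm'
    -- the matched components of `A` and `B`
    obtain ⟨i, mi, ri⟩ := Mt.exists hρ.symm hi'
    obtain ⟨j, mj, rj⟩ := Mt.exists h ri
    obtain ⟨j'', mj'', rj''⟩ := Mt.exists hρ' rj
    have m1 := Mt.trans hρ.symm (h.trans hρ') mi (Mt.trans h hρ' mj mj'')
    have m2 : Mt X'.M (X'.M ^ 1 * (ρs * (R * ρ'))) (ρs' * S * ρ) i' j'' := Mt.powR 1 hi' m1
    have m3 : Mut Y'.M j'' j' := Mt.unique hall' m2 hm'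
    have m4 : Mt B ρ' ρs' j j' := Mt.move hρ' mj'' (Mut.refl _ _) m3
    have m5 : Mt A (R * ρ') (ρs' * S) i j' := Mt.trans h hρ' mj m4
    have m6 : Mt X'.M (ρs * (R * ρ')) (ρs' * S * ρ) i' j' :=
      Mt.trans hρ.symm (h.trans hρ') mi m5
    have d1 := restrict cA' ρ a hρ.symm i' i hi' mi
    obtain ⟨t, d2⟩ := hH i j ri mj
    have d3 := restrict cB ρs' b hρ' j j' rj m4
    refine ⟨t, ?_⟩
    have e1 : bl X'.M Y'.M (X'.M ^ 1 * (ρs * (R * ρ'))) i' j' =
        (compO X'.M i').M ^ 1 * (bl X'.M A ρs i' i * (bl A B R i j * bl B Y'.M ρ' j j')) := by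
      rw [bl_powmul hall hi' m6 1]
      congr 1
      exact (bl_mul hρ.symm (h.trans hρ') mi m5).trans (congrArg _ (bl_mul h hρ' mj m4))
    have e2 : bl X'.M A ρs i' i * (compO A i).M ^ t = (compO X'.M i').M ^ t * bl X'.M A ρs i' i :=
      semi _ _ _ (bl_semi hρ.symm hi' ri mi) t
    have d4 := (powCH (compO X'.M i') 1).trans ((d1.trans d2).trans d3)
    convert d4 using 1
    rw [e1]
    calc (compO X'.M i').M ^ t * ((compO X'.M i').M ^ 1 *
          (bl X'.M A ρs i' i * (bl A B R i j * bl B Y'.M ρ' j j')))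
        = (compO X'.M i').M ^ 1 * (((compO X'.M i').M ^ t * bl X'.M A ρs i' i) *
          (bl A B R i j * bl B Y'.M ρ' j j')) := by
          simp only [← Matrix.mul_assoc]
          rw [← pow_add, ← pow_add, add_comm]
      _ = _ := by
          rw [← e2]; simp only [Matrix.mul_assoc]
  obtain ⟨L, hCH⟩ := core2 _ X'.ι Y'.ι X'.M Y'.M sA sB _ _ (1 + (a + (l + b))) (by omega)
    hall'.ar hall'.sa hall'.rs hall'.sr hH' rfl
  refine ⟨L + 1 + a + b, ?_⟩
  have c := (CH.trans cA (hCH : CH X' Y' (X'.M ^ L * (X'.M ^ 1 * (ρs * (R * ρ')))))).trans cB'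
  convert c using 1
  change A ^ (L + 1 + a + b) * R = ρ * (X'.M ^ L * (X'.M ^ 1 * (ρs * (R * ρ')))) * ρs'
  symm
  calc ρ * (X'.M ^ L * (X'.M ^ 1 * (ρs * (R * ρ')))) * ρs'
      = (ρ * X'.M ^ (L + 1)) * ρs * (R * (ρ' * ρs')) := by
        rw [← Matrix.mul_assoc (X'.M ^ L), ← pow_add]; simp only [Matrix.mul_assoc]
    _ = A ^ (L + 1) * (ρ * ρs) * (R * B ^ b) := by
        rw [← hρ.arp (L + 1), hρ'.rs]; simp only [Matrix.mul_assoc]
    _ = A ^ (L + 1 + a) * (A ^ b * R) := by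
        rw [hρ.rs, ← pow_add]
        congr 1
        exact (h.arp b).symm
    _ = A ^ (L + 1 + a + b) * R := by
        rw [← Matrix.mul_assoc, ← pow_add]

/-- the converse -/
theorem glob_loc {α β : Type} [Fintype α] [DecidableEq α] [Fintype β] [DecidableEq β]
    (A : Matrix α α ℕ) (B : Matrix β β ℕ) (R : Matrix α β ℕ) (S : Matrix β α ℕ) (l : ℕ)
    (h : SD A B R S l) (t : ℕ) (c : CH ⟨α, A⟩ ⟨β, B⟩ (A ^ t * R)) : Hl A B R S := by
  intro i j hi hm
  obtain ⟨ρs, a, hρ, _⟩ := sd_of_ch c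
  change SD A B (A ^ t * R) ρs a at hρ
  have m1 : Mt A (A ^ t * R) ρs i j := Mt.change (h.pow t) hρ hi (Mt.powR t hi hm)
  refine ⟨t, ?_⟩
  rw [← bl_powmul h hi hm t]
  exact restrict c ρs a hρ i j hi m1

end Run7.h850.SS
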