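import Pool.Agent.Run7.h850.SS.Glue

/-!
# Realising shift equivalences between matrices with good components
-/

set_option autoImplicit false
set_option linter.unusedSectionVars false
set_option linter.unusedVariables false

namespace Run7.h850.SS

open Matrix Pool.Agent.H812R2.SSE

/-- every shift equivalence from `X` to `Y` is realised up to a power by a chain of elementary
equivalences -/
def Rl (X Y : Obj) : Prop :=
  ∀ l : ℕ, 1 ≤ l → ∀ (R : Matrix X.ι Y.ι ℕ) (S : Matrix Y.ι X.ι ℕ),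
    R * S = X.M ^ l → S * R = Y.M ^ l → X.M * R = R * Y.M → S * X.M = Y.M * S →
    ∃ t, CH X Y (X.M ^ t * R)

/-- a good family of matrices: closed under renaming of the states, with powers tending to
infinity, except for the `1 × 1` matrix `[1]` -/
structure Fam (P : Obj → Prop) : Prop where
  iso : ∀ (X : Obj) (α : Type) [Fintype α] [DecidableEq α] (e : X.ι ≃ α), P X →
    P ⟨α, X.M.submatrix e.symm e.symm⟩
  bo : ∀ X, P X → Bo X.M

/-- all components belong to the family -/
def Gd (P : Obj → Prop) {α : Type} [Fintype α] [DecidableEq α] (A : Matrix α α ℕ) : Prop :=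
  ∀ i, P (compO A i)

variable {P : Obj → Prop}

theorem pow_zero_ne {α : Type} [Fintype α] [DecidableEq α] {A : Matrix α α ℕ} {i j : α}
    (h : (A ^ 0) i j ≠ 0) : i = j := by
  by_contra hne
  exact h (by rw [pow_zero, Matrix.one_apply_ne hne])

theorem sub_pow_ne {α : Type} [Fintype α] [DecidableEq α] (A : Matrix α α ℕ) (p : α → Prop)
    [Fintype {u // p u}] [DecidableEq {u // p u}] (C : Matrix {u // p u} {u // p u} ℕ)
    (hC : ∀ u v, C u v = A u.1 v.1) (k : ℕ) (u v : {u // p u}) (h : (C ^ k) u v ≠ 0) :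
    (A ^ k) u.1 v.1 ≠ 0 := by
  induction k generalizing v with
  | zero =>
    have := pow_zero_ne h
    rw [this, pow_zero, Matrix.one_apply_eq]
    exact one_ne_zero
  | succ k ih =>
    rw [pow_succ] at h
    obtain ⟨w, h1, h2⟩ := mex h
    rw [pow_succ]
    exact mne (ih w h1) (by rw [← hC]; exact h2)

theorem sub_pow_le {α : Type} [Fintype α] [DecidableEq α] (A : Matrix α α ℕ) (p : α → Prop)
    [Fintype {u // p u}] [DecidableEq {u // p u}] (C : Matrix {u // p u} {u // p u} ℕ)
    (hC : ∀ u v, C u v = A u.1 v.1) (k : ℕ) (u v : {u // p u}) :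
    (C ^ k) u v ≤ (A ^ k) u.1 v.1 := by
  classical
  induction k generalizing v with
  | zero =>
    by_cases h : u = v
    · rw [h, pow_zero, pow_zero, Matrix.one_apply_eq, Matrix.one_apply_eq]
    · rw [pow_zero, Matrix.one_apply_ne h]
      exact Nat.zero_le _
  | succ k ih =>
    rw [pow_succ, pow_succ, Matrix.mul_apply, Matrix.mul_apply]
    calc ∑ w : {u // p u}, (C ^ k) u w * C w v
        ≤ ∑ w : {u // p u}, (A ^ k) u.1 w.1 * A w.1 v.1 :=
          Finset.sum_le_sum fun w _ => by rw [hC]; exact Nat.mul_le_mul_right _ (ih w)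
      _ = ∑ w ∈ Finset.univ.map (Function.Embedding.subtype p), (A ^ k) u.1 w * A w v.1 := by
          rw [Finset.sum_map]; rfl
      _ ≤ _ := Finset.sum_le_sum_of_subset (Finset.subset_univ _)

theorem gw_of_gd (hP : Fam P) {α : Type} [Fintype α] [DecidableEq α] {A : Matrix α α ℕ}
    (hA : Gd P A) : Gw A := by
  intro i
  rcases hP.bo _ (hA i) with h | ⟨hs, h⟩
  · left
    intro K
    obtain ⟨k0, hk0⟩ := h K
    refine ⟨k0, fun k hk => ?_⟩
    have h1 := hk0 k hk ⟨i, Mut.refl A i⟩ ⟨i, Mut.refl A i⟩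
    exact h1.trans (@sub_pow_le α _ _ A (fun j => Mut A i j) (compO A i).fin (compO A i).dec
      (compO A i).M (fun _ _ => rfl) k ⟨i, Mut.refl A i⟩ ⟨i, Mut.refl A i⟩)
  · right
    have h1 := congrFun (congrFun h ⟨i, Mut.refl A i⟩) ⟨i, Mut.refl A i⟩
    have h2 : (1 : Matrix (compO A i).ι (compO A i).ι ℕ) ⟨i, Mut.refl A i⟩ ⟨i, Mut.refl A i⟩ = 1 :=
      Matrix.one_apply_eq _
    rw [h2] at h1
    exact h1

theorem per1_of_gd (hP : Fam P) {α : Type} [Fintype α] [DecidableEq α] {A : Matrix α α ℕ}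
    (hA : Gd P A) : Per1 A := (gw_of_gd hP hA).per1

/-- removing a set of states closed under predecessors -/
theorem gd_sub (hP : Fam P) {α : Type} [Fintype α] [DecidableEq α] {A : Matrix α α ℕ}
    (hA : Gd P A) (p : α → Prop) (hpred : ∀ w u, A w u ≠ 0 → p u → p w)
    [Fintype {u // ¬ p u}] [DecidableEq {u // ¬ p u}] :
    Gd P (fun u v : {u // ¬ p u} => A u.1 v.1) := by
  classical
  intro i
  set A1 : Matrix {u // ¬ p u} {u // ¬ p u} ℕ := fun u v => A u.1 v.1 with hA1
  have hpredk : ∀ (k : ℕ) w u, (A ^ k) w u ≠ 0 → p u → p w := by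
    intro k
    induction k with
    | zero => intro w u h hu; rwa [pow_zero_ne h]
    | succ k ih =>
      intro w u h hu
      rw [pow_succ] at h
      obtain ⟨v, h1, h2⟩ := mex h
      exact ih w v h1 (hpred v u h2 hu)
  have hback : ∀ (k : ℕ) (a b : {u // ¬ p u}), (A ^ k) a.1 b.1 ≠ 0 → (A1 ^ k) a b ≠ 0 := by
    intro k
    induction k with
    | zero =>
      intro a b h
      have : a = b := Subtype.ext (pow_zero_ne h)
      rw [this, pow_zero, Matrix.one_apply_eq]
      exact one_ne_zero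
    | succ k ih =>
      intro a b h
      rw [pow_succ] at h
      obtain ⟨w, h1, h2⟩ := mex h
      have hw : ¬ p w := fun hw => a.2 (hpredk k a.1 w h1 hw)
      rw [pow_succ]
      exact mne (b := ⟨w, hw⟩) (ih a ⟨w, hw⟩ h1) h2
  have hR1 : ∀ a b : {u // ¬ p u}, Rch A1 a b ↔ Rch A a.1 b.1 := by
    intro a b
    constructor
    · rintro ⟨k, hk⟩
      exact ⟨k, sub_pow_ne A _ A1 (fun _ _ => rfl) k a b hk⟩
    · rintro ⟨k, hk⟩
      exact ⟨k, hback k a b hk⟩
  have hM1 : ∀ a b : {u // ¬ p u}, Mut A1 a b ↔ Mut A a.1 b.1 := by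
    intro a b
    unfold Mut
    rw [hR1, hR1]
  have hcl : ∀ a b : α, ¬ p a → Mut A a b → ¬ p b := by
    rintro a b ha ⟨⟨k, hk⟩, _⟩ hb
    exact ha (hpredk k a b hk hb)
  let ε : {j // Mut A i.1 j} ≃ {j : {u // ¬ p u} // Mut A1 i j} :=
    { toFun := fun j => ⟨⟨j.1, hcl i.1 j.1 i.2 j.2⟩, (hM1 _ _).2 j.2⟩
      invFun := fun j => ⟨j.1.1, (hM1 _ _).1 j.2⟩
      left_inv := fun j => rfl
      right_inv := fun j => rfl }
  exact @Fam.iso P hP (compO A i.1) {j : {u // ¬ p u} // Mut A1 i j} (compO A1 i).fin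
    (compO A1 i).dec ε (hA i.1)

theorem core {Q : Obj → Prop} (hP : Fam P) (hQ : Fam Q) (hrl : ∀ X Y, P X → Q Y → Rl X Y) :
    ∀ (N : ℕ) (α β : Type) [Fintype α] [DecidableEq α] [Fintype β]
    [DecidableEq β] (A : Matrix α α ℕ) (B : Matrix β β ℕ) (_ : Gd P A) (_ : Gd Q B)
    (R : Matrix α β ℕ) (S : Matrix β α ℕ) (l : ℕ) (_ : 1 ≤ l)
    (_ : A * R = R * B) (_ : S * A = B * S) (_ : R * S = A ^ l) (_ : S * R = B ^ l),
    Fintype.card α = N → ∃ t, CH ⟨α, A⟩ ⟨β, B⟩ (A ^ t * R) := by
  intro N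
  induction N using Nat.strong_induction_on with
  | _ N ih =>
  intro α β _ _ _ _ A B hA hB R S l hl hAR hSA hRS hSR hN
  classical
  have pA := per1_of_gd hP hA
  have pB := per1_of_gd hQ hB
  rcases isEmpty_or_nonempty α with hα | hα
  · have hβ : IsEmpty β := by
      constructor
      intro b
      obtain ⟨k0, hk0⟩ := pB b
      have h1 : (B ^ (l + k0)) b b ≠ 0 := hk0 _ (by omega)
      rw [pow_add, ← hSR, Matrix.mul_assoc] at h1
      obtain ⟨a, _, _⟩ := mex h1
      exact hα.elim a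
    refine ⟨0, CH.single (X := ⟨α, A⟩) (Y := ⟨β, B⟩) _ S ?_ ?_⟩
    · ext i; exact hα.elim i
    · ext i; exact hβ.elim i
  · obtain ⟨u0, _, hu0⟩ := Finset.exists_min_image (Finset.univ : Finset α)
      (fun i => (Finset.univ.filter (fun w => Rch A w i)).card)
      (by obtain ⟨a⟩ := hα; exact ⟨a, Finset.mem_univ _⟩)
    set p : α → Prop := fun u => Mut A u0 u with hp
    have hpred : ∀ w u, A w u ≠ 0 → p u → p w := by
      intro w u hwu hu
      have h1 : (Finset.univ.filter (fun x => Rch A x w)) ⊆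
          (Finset.univ.filter (fun x => Rch A x u)) := by
        intro x
        simp only [Finset.mem_filter, Finset.mem_univ, true_and]
        exact fun h => h.trans (Rch.edge hwu)
      have h2 : (Finset.univ.filter (fun x => Rch A x u)) =
          (Finset.univ.filter (fun x => Rch A x u0)) := by
        ext x
        simp only [Finset.mem_filter, Finset.mem_univ, true_and]
        exact ⟨fun h => h.trans hu.2, fun h => h.trans hu.1⟩
      have h3 : (Finset.univ.filter (fun x => Rch A x u)).card ≤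
          (Finset.univ.filter (fun x => Rch A x w)).card := by
        rw [h2]; exact hu0 w (Finset.mem_univ _)
      have h4 := Finset.eq_of_subset_of_card_le h1 h3
      have h5 : u ∈ Finset.univ.filter (fun x => Rch A x w) := by
        rw [h4]; simp [Rch.refl]
      simp only [Finset.mem_filter, Finset.mem_univ, true_and] at h5
      exact Mut.trans hu ⟨h5, Rch.edge hwu⟩
    have hpredk : ∀ (k : ℕ) w u, (A ^ k) w u ≠ 0 → p u → p w := by
      intro k
      induction k with
      | zero => intro w u h hu; rwa [pow_zero_ne h]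
      | succ k ihk =>
        intro w u h hu
        rw [pow_succ] at h
        obtain ⟨v, h1, h2⟩ := mex h
        exact ihk w v h1 (hpred v u h2 hu)
    set D : β → Prop := fun b => ∃ c, p c ∧ S b c ≠ 0 with hD
    have hRD : ∀ u b, D b → R u b ≠ 0 → p u := by
      rintro u b ⟨c, hc, hSc⟩ hR
      refine hpredk l u c ?_ hc
      rw [← hRS]; exact mne hR hSc
    have hDpred : ∀ a b, B a b ≠ 0 → D b → D a := by
      rintro a b hab ⟨c, hc, hSc⟩
      have h1 : (B * S) a c ≠ 0 := mne hab hSc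
      rw [← hSA] at h1
      obtain ⟨u, hu1, hu2⟩ := mex h1
      exact ⟨u, hpred u c hu2 hc, hu1⟩
    have hDpredk : ∀ (k : ℕ) w u, (B ^ k) w u ≠ 0 → D u → D w := by
      intro k
      induction k with
      | zero => intro w u h hu; rwa [pow_zero_ne h]
      | succ k ihk =>
        intro w u h hu
        rw [pow_succ] at h
        obtain ⟨v, h1, h2⟩ := mex h
        exact ihk w v h1 (hDpred v u h2 hu)
    have hcol : ∀ b, D b → ∃ c, p c ∧ R c b ≠ 0 := by
      intro b hb
      obtain ⟨k0, hk0⟩ := pB b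
      have h1 : (B ^ (k0 + l)) b b ≠ 0 := hk0 _ (by omega)
      rw [pow_add, ← hSR, ← Matrix.mul_assoc] at h1
      obtain ⟨c, _, h2⟩ := mex h1
      exact ⟨c, hRD c b hb h2, h2⟩
    obtain ⟨b0, hb0⟩ : ∃ b, D b := by
      obtain ⟨k0, hk0⟩ := pA u0
      have h1 : (A ^ (k0 + l)) u0 u0 ≠ 0 := hk0 _ (by omega)
      rw [pow_add, ← hRS, ← Matrix.mul_assoc] at h1
      obtain ⟨b, _, h2⟩ := mex h1
      exact ⟨b, u0, Mut.refl A u0, h2⟩
    have hrch : ∀ b b', D b → D b' → Rch B b b' := by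
      rintro b b' ⟨c, hc, hSc⟩ hb'
      obtain ⟨c', hc', hR'⟩ := hcol b' hb'
      obtain ⟨k, hk⟩ := (Mut.trans (Mut.symm hc) hc').1
      refine ⟨k + l, ?_⟩
      have e1 : S * A ^ k * R = B ^ (k + l) := by
        rw [← semiconj_pow _ _ _ hSA.symm k, Matrix.mul_assoc, hSR, ← pow_add]
      rw [← e1]
      exact mne (mne hSc hk) hR'
    have hDm : ∀ b, Mut B b0 b ↔ D b := by
      intro b
      constructor
      · rintro ⟨_, ⟨k, hk⟩⟩
        exact hDpredk k b b0 hk hb0
      · intro h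
        exact ⟨hrch b0 b hb0 h, hrch b b0 h hb0⟩
    -- the blocks
    set e : α ≃ {u // p u} ⊕ {u // ¬ p u} := (Equiv.sumCompl p).symm with he
    set f : β ≃ {b // D b} ⊕ {b // ¬ D b} := (Equiv.sumCompl D).symm with hf
    have he1 : ∀ u, e.symm (Sum.inl u) = u.1 := fun u => rfl
    have he2 : ∀ u, e.symm (Sum.inr u) = u.1 := fun u => rfl
    have hf1 : ∀ u, f.symm (Sum.inl u) = u.1 := fun u => rfl
    have hf2 : ∀ u, f.symm (Sum.inr u) = u.1 := fun u => rfl
    set Θ : Matrix {u // p u} {u // p u} ℕ := fun u v => A u.1 v.1 with hΘ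
    set m : Matrix {u // p u} {u // ¬ p u} ℕ := fun u v => A u.1 v.1 with hm
    set A1 : Matrix {u // ¬ p u} {u // ¬ p u} ℕ := fun u v => A u.1 v.1 with hA1
    set Θ' : Matrix {b // D b} {b // D b} ℕ := fun u v => B u.1 v.1 with hΘ'
    set m' : Matrix {b // D b} {b // ¬ D b} ℕ := fun u v => B u.1 v.1 with hm'
    set B1 : Matrix {b // ¬ D b} {b // ¬ D b} ℕ := fun u v => B u.1 v.1 with hB1
    set r0 : Matrix {u // p u} {b // D b} ℕ := fun u v => R u.1 v.1 with hr0
    set r12 : Matrix {u // p u} {b // ¬ D b} ℕ := fun u v => R u.1 v.1 with hr12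
    set R2 : Matrix {u // ¬ p u} {b // ¬ D b} ℕ := fun u v => R u.1 v.1 with hR2
    set s0 : Matrix {b // D b} {u // p u} ℕ := fun u v => S u.1 v.1 with hs0
    set s12 : Matrix {b // D b} {u // ¬ p u} ℕ := fun u v => S u.1 v.1 with hs12
    set S2 : Matrix {b // ¬ D b} {u // ¬ p u} ℕ := fun u v => S u.1 v.1 with hS2
    have bA : A.submatrix e.symm e.symm = fromBlocks Θ m 0 A1 := by
      ext i j
      rcases i with i | i <;> rcases j with j | j
      · rfl
      · rfl
      · simp only [Matrix.submatrix_apply, he1, he2, Matrix.fromBlocks_apply₂₁, Matrix.zero_apply]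
        by_contra hne
        exact i.2 (hpred i.1 j.1 hne j.2)
      · rfl
    have bB : B.submatrix f.symm f.symm = fromBlocks Θ' m' 0 B1 := by
      ext i j
      rcases i with i | i <;> rcases j with j | j
      · rfl
      · rfl
      · simp only [Matrix.submatrix_apply, hf1, hf2, Matrix.fromBlocks_apply₂₁, Matrix.zero_apply]
        by_contra hne
        exact i.2 (hDpred i.1 j.1 hne j.2)
      · rfl
    have bR : R.submatrix e.symm f.symm = fromBlocks r0 r12 0 R2 := by
      ext i j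
      rcases i with i | i <;> rcases j with j | j
      · rfl
      · rfl
      · simp only [Matrix.submatrix_apply, he2, hf1, Matrix.fromBlocks_apply₂₁, Matrix.zero_apply]
        by_contra hne
        exact i.2 (hRD i.1 j.1 j.2 hne)
      · rfl
    have bS : S.submatrix f.symm e.symm = fromBlocks s0 s12 0 S2 := by
      ext i j
      rcases i with i | i <;> rcases j with j | j
      · rfl
      · rfl
      · simp only [Matrix.submatrix_apply, he1, hf2, Matrix.fromBlocks_apply₂₁, Matrix.zero_apply]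
        by_contra hne
        exact i.2 ⟨j.1, j.2, hne⟩
      · rfl
    -- block relations
    have kAR : fromBlocks Θ m 0 A1 * fromBlocks r0 r12 0 R2 =
        fromBlocks r0 r12 0 R2 * fromBlocks Θ' m' 0 B1 := by
      rw [← bA, ← bR, ← bB, Matrix.submatrix_mul_equiv, Matrix.submatrix_mul_equiv, hAR]
    have kSA : fromBlocks s0 s12 0 S2 * fromBlocks Θ m 0 A1 =
        fromBlocks Θ' m' 0 B1 * fromBlocks s0 s12 0 S2 := by
      rw [← bA, ← bS, ← bB, Matrix.submatrix_mul_equiv, Matrix.submatrix_mul_equiv, hSA]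
    have kRS : fromBlocks r0 r12 0 R2 * fromBlocks s0 s12 0 S2 =
        (fromBlocks Θ m 0 A1) ^ l := by
      rw [← bA, ← bR, ← bS, Matrix.submatrix_mul_equiv, ← submatrix_pow, hRS]
    have kSR : fromBlocks s0 s12 0 S2 * fromBlocks r0 r12 0 R2 =
        (fromBlocks Θ' m' 0 B1) ^ l := by
      rw [← bB, ← bR, ← bS, Matrix.submatrix_mul_equiv, ← submatrix_pow, hSR]
    have k1 := kAR
    have k2 := kSA
    have k3 := kRS
    have k4 := kSR
    rw [up, up] at k1 k2
    rw [up, block_pow] at k3 k4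
    obtain ⟨e1, -, e2⟩ := blk k1
    obtain ⟨e3, -, e4⟩ := blk k2
    obtain ⟨e5, -, e6⟩ := blk k3
    obtain ⟨e7, -, e8⟩ := blk k4
    -- components
    have PΘ : P ⟨{u // p u}, Θ⟩ := hP.iso (compO A u0) {u // p u} (Equiv.refl _) (hA u0)
    have PΘ' : Q ⟨{b // D b}, Θ'⟩ :=
      hQ.iso (compO B b0) {b // D b} (Equiv.subtypeEquivRight hDm) (hB b0)
    have gA1 : Gd P A1 := gd_sub hP hA p hpred
    have gB1 : Gd Q B1 := gd_sub hQ hB D hDpred
    obtain ⟨t1, c1⟩ := hrl _ _ PΘ PΘ' l hl r0 s0 e5 e7 e1 e3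
    have hcard : Fintype.card {u // ¬ p u} < N := by
      rw [← hN]
      exact Fintype.card_subtype_lt (x := u0) (by simpa using Mut.refl A u0)
    obtain ⟨t2, c2⟩ := ih _ hcard _ _ A1 B1 gA1 gB1 R2 S2 l hl e2 e4 e6 e8 rfl
    obtain ⟨T, c⟩ := glue Θ m A1 Θ' m' B1 r0 r12 R2 s0 s12 S2 l kAR kSA kRS kSR
      (hP.bo _ PΘ) (hQ.bo _ PΘ') (gw_of_gd hQ gB1) t1 t2 c1 c2
    refine ⟨T, ?_⟩
    refine CH.reindex e f A B _ ?_
    rw [← Matrix.submatrix_mul_equiv (A ^ T) R e.symm e.symm f.symm, submatrix_pow, bA, bB, bR]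
    exact c

end Run7.h850.SS
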