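import Pool.Agent.Run7.h850.SS.Step

/-!
# Glueing realisations of the diagonal blocks
-/

set_option autoImplicit false
set_option linter.unusedSectionVars false
set_option linter.unusedVariables false

namespace Run7.h850.SS

open Matrix Pool.Agent.H812R2.SSE

/-- replacing the first diagonal block, with the block form of the product -/
theorem replace' {X Y : Obj} {ρ : Matrix X.ι Y.ι ℕ} (h : CH X Y ρ) {κ : Type} [Fintype κ]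
    [DecidableEq κ] (Q : Matrix κ κ ℕ) : ∀ (Z : Matrix X.ι κ ℕ),
    ∃ (Z' : Matrix Y.ι κ ℕ) (z : Matrix X.ι κ ℕ) (n : ℕ),
      CH ⟨X.ι ⊕ κ, fromBlocks X.M Z 0 Q⟩ ⟨Y.ι ⊕ κ, fromBlocks Y.M Z' 0 Q⟩
        (fromBlocks ρ z 0 (Q ^ n)) := by
  induction h with
  | refl X =>
    intro Z
    refine ⟨Z, 0, 0, ?_⟩
    rw [pow_zero, Matrix.fromBlocks_one]
    exact CH.refl _
  | step X Y W R S ρ h1 h2 _ ih =>
    intro Z
    obtain ⟨Z', z, n, h'⟩ := ih (S * Z)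
    refine ⟨Z', R * z + Z * Q ^ n, n + 1, ?_⟩
    have e : fromBlocks (R * ρ) (R * z + Z * Q ^ n) 0 (Q ^ (n + 1)) =
        fromBlocks R Z 0 Q * fromBlocks ρ z 0 (Q ^ n) := by
      rw [Matrix.fromBlocks_multiply, pow_succ']
      simp
    rw [e]
    refine CH.step ⟨X.ι ⊕ κ, fromBlocks X.M Z 0 Q⟩ ⟨Y.ι ⊕ κ, fromBlocks Y.M (S * Z) 0 Q⟩ _
      (fromBlocks R Z 0 Q) (fromBlocks S 0 0 1) _ ?_ ?_ h'
    · simp only [Matrix.fromBlocks_multiply, h1]; simp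
    · simp only [Matrix.fromBlocks_multiply, h2]; simp

theorem blk {a b c d : Type} {A A' : Matrix a b ℕ} {B B' : Matrix a d ℕ} {C C' : Matrix c b ℕ}
    {D D' : Matrix c d ℕ} (h : fromBlocks A B C D = fromBlocks A' B' C' D') :
    A = A' ∧ B = B' ∧ D = D' := by
  have h1 := congrArg Matrix.toBlocks₁₁ h
  have h2 := congrArg Matrix.toBlocks₁₂ h
  have h4 := congrArg Matrix.toBlocks₂₂ h
  rw [Matrix.toBlocks_fromBlocks₁₁, Matrix.toBlocks_fromBlocks₁₁] at h1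
  rw [Matrix.toBlocks_fromBlocks₁₂, Matrix.toBlocks_fromBlocks₁₂] at h2
  rw [Matrix.toBlocks_fromBlocks₂₂, Matrix.toBlocks_fromBlocks₂₂] at h4
  exact ⟨h1, h2, h4⟩

theorem up {a b c a' b' c' : Type} [Fintype b] [Fintype b'] (A : Matrix a b ℕ) (B : Matrix a b' ℕ)
    (D : Matrix a' b' ℕ) (A' : Matrix b c ℕ) (B' : Matrix b c' ℕ) (D' : Matrix b' c' ℕ) :
    fromBlocks A B 0 D * fromBlocks A' B' 0 D' =
      fromBlocks (A * A') (A * B' + B * D') (0 : Matrix a' c ℕ) (D * D') := by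
  rw [Matrix.fromBlocks_multiply]; simp

theorem glue {γ γ' α β : Type} [Fintype γ] [DecidableEq γ] [Fintype γ'] [DecidableEq γ']
    [Fintype α] [DecidableEq α] [Fintype β] [DecidableEq β]
    (Θ : Matrix γ γ ℕ) (m : Matrix γ α ℕ) (A1 : Matrix α α ℕ)
    (Θ' : Matrix γ' γ' ℕ) (m' : Matrix γ' β ℕ) (B1 : Matrix β β ℕ)
    (r0 : Matrix γ γ' ℕ) (r12 : Matrix γ β ℕ) (R2 : Matrix α β ℕ)
    (s0 : Matrix γ' γ ℕ) (s12 : Matrix γ' α ℕ) (S2 : Matrix β α ℕ) (l : ℕ)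
    (kAR : fromBlocks Θ m 0 A1 * fromBlocks r0 r12 0 R2 =
      fromBlocks r0 r12 0 R2 * fromBlocks Θ' m' 0 B1)
    (kSA : fromBlocks s0 s12 0 S2 * fromBlocks Θ m 0 A1 =
      fromBlocks Θ' m' 0 B1 * fromBlocks s0 s12 0 S2)
    (kRS : fromBlocks r0 r12 0 R2 * fromBlocks s0 s12 0 S2 = (fromBlocks Θ m 0 A1) ^ l)
    (kSR : fromBlocks s0 s12 0 S2 * fromBlocks r0 r12 0 R2 = (fromBlocks Θ' m' 0 B1) ^ l)
    (hΘ : Bo Θ) (hΘ' : Bo Θ') (hB : Gw B1) (t1 t2 : ℕ)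
    (c1 : CH ⟨γ, Θ⟩ ⟨γ', Θ'⟩ (Θ ^ t1 * r0)) (c2 : CH ⟨α, A1⟩ ⟨β, B1⟩ (A1 ^ t2 * R2)) :
    ∃ T, CH (XO Θ m A1) (XO Θ' m' B1)
      ((fromBlocks Θ m 0 A1) ^ T * fromBlocks r0 r12 0 R2) := by
  -- block equations
  have k1 := kAR
  have k2 := kSA
  have k3 := kRS
  have k4 := kSR
  rw [up, up] at k1 k2
  rw [up, block_pow] at k3 k4
  obtain ⟨e1, -, e2⟩ := blk k1
  obtain ⟨e3, -, e4⟩ := blk k2
  obtain ⟨e5, -, e6⟩ := blk k3
  obtain ⟨e7, -, e8⟩ := blk k4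
  -- the chain
  have d2 := c2.lift Θ m
  obtain ⟨Z', z, n, d1⟩ := replace' c1 B1 (m * (A1 ^ t2 * R2))
  have cc := d2.trans d1
  obtain ⟨ρ, hρ⟩ : ∃ ρ, ρ = fromBlocks (1 : Matrix γ γ ℕ) 0 0 (A1 ^ t2 * R2) *
    fromBlocks (Θ ^ t1 * r0) z 0 (B1 ^ n) := ⟨_, rfl⟩
  have hρ' : ρ = fromBlocks (Θ ^ t1 * r0) z 0 (A1 ^ t2 * R2 * B1 ^ n) := by
    rw [hρ, Matrix.fromBlocks_multiply]
    simp
  change CH (XO Θ m A1) (XO Θ' Z' B1) _ at cc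
  rw [← hρ] at cc
  obtain ⟨a1, ρs, a, a2, a3, a4, a5⟩ := cc.rev'
  change fromBlocks Θ m 0 A1 * ρ = ρ * fromBlocks Θ' Z' 0 B1 at a1
  change ρ * ρs = (fromBlocks Θ m 0 A1) ^ a at a3
  change ρs * ρ = (fromBlocks Θ' Z' 0 B1) ^ a at a4
  change fromBlocks Θ' Z' 0 B1 * ρs = ρs * fromBlocks Θ m 0 A1 at a5
  -- the block form of the reverse product
  have hz : ∀ b c, ρs (Sum.inr b) (Sum.inl c) = 0 := by
    intro b c
    by_contra hne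
    obtain ⟨k0, hk0⟩ := hΘ.per1 c
    have h1 : (Θ ^ t1 * r0 * (s0 * Θ ^ k0)) c c ≠ 0 := by
      have : Θ ^ t1 * r0 * (s0 * Θ ^ k0) = Θ ^ (t1 + l + k0) := by
        rw [Matrix.mul_assoc, ← Matrix.mul_assoc r0, e5, ← pow_add, ← pow_add]
        congr 1; ring
      rw [this]
      exact hk0 (t1 + l + k0) (by omega)
    obtain ⟨c', h2, _⟩ := mex h1
    have h3 : (ρs * ρ) (Sum.inr b) (Sum.inl c') ≠ 0 := by
      refine mne (b := Sum.inl c) hne ?_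
      rw [hρ']
      exact h2
    rw [a4, block_pow] at h3
    exact h3 rfl
  obtain ⟨x, z', y, hx⟩ : ∃ (x : Matrix γ' γ ℕ) (z' : Matrix γ' α ℕ) (y : Matrix β α ℕ),
      ρs = fromBlocks x z' 0 y := by
    refine ⟨ρs.toBlocks₁₁, ρs.toBlocks₁₂, ρs.toBlocks₂₂, ?_⟩
    have : ρs.toBlocks₂₁ = 0 := by
      ext b c; exact hz b c
    conv_lhs => rw [← Matrix.fromBlocks_toBlocks ρs, this]
  have k5 : fromBlocks (Θ ^ t1 * r0) z 0 (A1 ^ t2 * R2 * B1 ^ n) * fromBlocks x z' 0 y =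
      (fromBlocks Θ m 0 A1) ^ a := by rw [← hρ', ← hx]; exact a3
  rw [up, block_pow] at k5
  obtain ⟨g1, -, g2⟩ := blk k5
  -- the new shift equivalence
  obtain ⟨w1, hw1⟩ : ∃ w1, w1 = x * r0 := ⟨_, rfl⟩
  obtain ⟨w2, hw2⟩ : ∃ w2, w2 = y * R2 := ⟨_, rfl⟩
  have f1 : Θ' ^ (t1 + l) * w1 = Θ' ^ (l + a) := by
    have h1 : s0 * (Θ ^ t1 * r0) = Θ' ^ (t1 + l) := by
      rw [← Matrix.mul_assoc, ← semiconj_pow _ _ _ e3.symm, Matrix.mul_assoc, e7, ← pow_add]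
    rw [← h1, hw1]
    calc s0 * (Θ ^ t1 * r0) * (x * r0) = s0 * ((Θ ^ t1 * r0 * x) * r0) := by
          simp only [Matrix.mul_assoc]
      _ = s0 * (Θ ^ a * r0) := by rw [g1]
      _ = Θ' ^ (l + a) := by
          rw [semiconj_pow _ _ _ e1, ← Matrix.mul_assoc, e7, ← pow_add]
  have f2 : B1 ^ (t2 + l + n) * w2 = B1 ^ (l + a) := by
    have h1 : S2 * (A1 ^ t2 * R2 * B1 ^ n) = B1 ^ (t2 + l + n) := by
      rw [← Matrix.mul_assoc, ← Matrix.mul_assoc, ← semiconj_pow _ _ _ e4.symm,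
        Matrix.mul_assoc (B1 ^ t2), e8, ← pow_add, ← pow_add]
    rw [← h1, hw2]
    calc S2 * (A1 ^ t2 * R2 * B1 ^ n) * (y * R2) =
          S2 * ((A1 ^ t2 * R2 * B1 ^ n * y) * R2) := by simp only [Matrix.mul_assoc]
      _ = S2 * (A1 ^ a * R2) := by rw [g2]
      _ = B1 ^ (l + a) := by
          rw [semiconj_pow _ _ _ e2, ← Matrix.mul_assoc, e8, ← pow_add]
  obtain ⟨A', hA'⟩ : ∃ A', A' = fromBlocks Θ' Z' 0 B1 := ⟨_, rfl⟩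
  obtain ⟨A_, hA_⟩ : ∃ A_, A_ = fromBlocks Θ m 0 A1 := ⟨_, rfl⟩
  obtain ⟨B_, hB_⟩ : ∃ B_, B_ = fromBlocks Θ' m' 0 B1 := ⟨_, rfl⟩
  obtain ⟨R_, hR_⟩ : ∃ R_, R_ = fromBlocks r0 r12 0 R2 := ⟨_, rfl⟩
  obtain ⟨S_, hS_⟩ : ∃ S_, S_ = fromBlocks s0 s12 0 S2 := ⟨_, rfl⟩
  rw [← hA_, ← hR_, ← hB_] at kAR
  rw [← hA_, ← hS_, ← hB_] at kSA
  rw [← hA_, ← hS_, ← hR_] at kRS
  rw [← hB_, ← hS_, ← hR_] at kSR
  rw [← hA_, ← hA'] at a1 a5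
  rw [← hA_] at a3
  rw [← hA'] at a4
  obtain ⟨N0, hN0⟩ : ∃ N0, N0 = t1 + t2 + n + l := ⟨_, rfl⟩
  obtain ⟨W, hW⟩ : ∃ W, W = A' ^ N0 * (ρs * R_) := ⟨_, rfl⟩
  obtain ⟨S', hS'⟩ : ∃ S', S' = S_ * ρ := ⟨_, rfl⟩
  have p1 : W * S' = A' ^ (N0 + l + a) := by
    calc W * S' = A' ^ N0 * (ρs * (R_ * S_) * ρ) := by
          rw [hW, hS']; simp only [Matrix.mul_assoc]
      _ = A' ^ N0 * (A' ^ l * (ρs * ρ)) := by
          rw [kRS, ← semiconj_pow _ _ _ a5, Matrix.mul_assoc]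
      _ = A' ^ (N0 + l + a) := by rw [a4, ← pow_add, ← pow_add]; congr 1; ring
  have p2 : S' * W = B_ ^ (N0 + l + a) := by
    calc S' * W = S_ * (ρ * A' ^ N0) * (ρs * R_) := by
          rw [hW, hS']; simp only [Matrix.mul_assoc]
      _ = S_ * (A_ ^ N0 * (ρ * ρs)) * R_ := by
          rw [← semiconj_pow _ _ _ a1]; simp only [Matrix.mul_assoc]
      _ = S_ * A_ ^ (N0 + a) * R_ := by rw [a3, ← pow_add]
      _ = B_ ^ (N0 + l + a) := by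
          rw [← semiconj_pow _ _ _ kSA.symm, Matrix.mul_assoc, kSR, ← pow_add]; congr 1; ring
  have p3 : A' * W = W * B_ := by
    calc A' * W = A' ^ N0 * (A' * ρs * R_) := by
          rw [hW, ← Matrix.mul_assoc, ← pow_succ', pow_succ]; simp only [Matrix.mul_assoc]
      _ = A' ^ N0 * (ρs * (A_ * R_)) := by rw [a5]; simp only [Matrix.mul_assoc]
      _ = W * B_ := by rw [kAR, hW]; simp only [Matrix.mul_assoc]
  have p4 : S' * A' = B_ * S' := by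
    rw [hS', Matrix.mul_assoc, ← a1, ← Matrix.mul_assoc, kSA, Matrix.mul_assoc]
  obtain ⟨w, hw⟩ : ∃ w, W = fromBlocks (Θ' ^ (t2 + n + (l + a))) w 0 (B1 ^ (t1 + (l + a))) := by
    have h1 : Θ' ^ N0 * w1 = Θ' ^ (t2 + n + (l + a)) := by
      rw [pow_add _ (t2 + n), ← f1, ← Matrix.mul_assoc, ← pow_add, hN0]
      congr 2; ring
    have h2 : B1 ^ N0 * w2 = B1 ^ (t1 + (l + a)) := by
      rw [pow_add _ t1, ← f2, ← Matrix.mul_assoc, ← pow_add, hN0]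
      congr 2; ring
    have h3 : W = fromBlocks (Θ' ^ N0 * (x * r0)) (Θ' ^ N0 * (x * r12 + z' * R2) +
        PP Θ' Z' B1 N0 * (y * R2)) 0 (B1 ^ N0 * (y * R2)) := by
      rw [hW, hA', block_pow, hx, hR_, up, up]
    refine ⟨Θ' ^ N0 * (x * r12 + z' * R2) + PP Θ' Z' B1 N0 * (y * R2), ?_⟩
    rw [hw1] at h1
    rw [hw2] at h2
    rw [h3, h1, h2]
  obtain ⟨v0, v12, V2, hv⟩ : ∃ v0 v12 V2, S' = fromBlocks v0 v12 0 V2 := by
    rw [hS', hS_, hρ', up]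
    exact ⟨_, _, _, rfl⟩
  rw [hA', hB_, hw] at p3
  rw [hA', hB_, hv] at p4
  rw [hA', hw, hv] at p1
  rw [hB_, hw, hv] at p2
  obtain ⟨T, c3⟩ := block_step hΘ' hB _ _ _ w v0 v12 V2 p3 p4 p1 p2
  refine ⟨T + N0 + a, ?_⟩
  have c := cc.trans c3
  convert c using 1
  rw [← hw, ← hA', ← hA_, ← hR_, hW]
  symm
  calc ρ * (A' ^ T * (A' ^ N0 * (ρs * R_))) = ρ * A' ^ (T + N0) * (ρs * R_) := by
        rw [pow_add]; simp only [Matrix.mul_assoc]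
    _ = A_ ^ (T + N0) * (ρ * ρs) * R_ := by
        rw [← semiconj_pow _ _ _ a1]; simp only [Matrix.mul_assoc]
    _ = A_ ^ (T + N0 + a) * R_ := by rw [a3, ← pow_add]

end Run7.h850.SS
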