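import Pool.Agent.Run7.h850.SS.Uni

/-!
# Restricting chains and shift equivalences to components
-/

set_option autoImplicit false
set_option linter.unusedSectionVars false
set_option linter.unusedVariables false

namespace Run7.h850.SS

open Matrix Pool.Agent.H812R2.SSE

variable {α β δ : Type} [Fintype α] [DecidableEq α] [Fintype β] [DecidableEq β] [Fintype δ]
  [DecidableEq δ]

/-- a state on a closed path -/
def Rec {α : Type} [Fintype α] [DecidableEq α] (A : Matrix α α ℕ) (i : α) : Prop :=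
  ∃ p, 1 ≤ p ∧ (A ^ p) i i ≠ 0

theorem Rec.large {A : Matrix α α ℕ} {i : α} (h : Rec A i) (N : ℕ) :
    ∃ M, N ≤ M ∧ 1 ≤ M ∧ (A ^ M) i i ≠ 0 := by
  obtain ⟨p, hp, h⟩ := h
  refine ⟨p * (N + 1), ?_, ?_, ?_⟩
  · nlinarith
  · nlinarith
  · have : ∀ k : ℕ, (A ^ (p * (k + 1))) i i ≠ 0 := by
      intro k
      induction k with
      | zero => simpa using h
      | succ k ih =>
        rw [show p * (k + 1 + 1) = p * (k + 1) + p by ring, pow_add]
        exact mne ih h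
    exact this N

/-- shift equivalence data (any lag, also zero) -/
structure SD {α β : Type} [Fintype α] [DecidableEq α] [Fintype β] [DecidableEq β]
    (A : Matrix α α ℕ) (B : Matrix β β ℕ) (R : Matrix α β ℕ) (S : Matrix β α ℕ) (l : ℕ) :
    Prop where
  rs : R * S = A ^ l
  sr : S * R = B ^ l
  ar : A * R = R * B
  sa : S * A = B * S

theorem SD.symm {A : Matrix α α ℕ} {B : Matrix β β ℕ} {R : Matrix α β ℕ} {S : Matrix β α ℕ}
    {l : ℕ} (h : SD A B R S l) : SD B A S R l := ⟨h.sr, h.rs, h.sa.symm, h.ar.symm⟩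

theorem SD.arp {A : Matrix α α ℕ} {B : Matrix β β ℕ} {R : Matrix α β ℕ} {S : Matrix β α ℕ}
    {l : ℕ} (h : SD A B R S l) (k : ℕ) : A ^ k * R = R * B ^ k := semiconj_pow A B R h.ar k

theorem SD.sap {A : Matrix α α ℕ} {B : Matrix β β ℕ} {R : Matrix α β ℕ} {S : Matrix β α ℕ}
    {l : ℕ} (h : SD A B R S l) (k : ℕ) : B ^ k * S = S * A ^ k :=
  semiconj_pow B A S h.sa.symm k

theorem SD.trans {A : Matrix α α ℕ} {B : Matrix β β ℕ} {C : Matrix δ δ ℕ} {R : Matrix α β ℕ}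
    {S : Matrix β α ℕ} {l : ℕ} {R' : Matrix β δ ℕ} {S' : Matrix δ β ℕ} {l' : ℕ}
    (h : SD A B R S l) (h' : SD B C R' S' l') : SD A C (R * R') (S' * S) (l + l') := by
  refine ⟨?_, ?_, ?_, ?_⟩
  · calc R * R' * (S' * S) = R * (R' * S') * S := by simp only [Matrix.mul_assoc]
      _ = A ^ l' * (R * S) := by rw [h'.rs, ← h.arp, Matrix.mul_assoc]
      _ = A ^ (l + l') := by rw [h.rs, ← pow_add, add_comm]
  · calc S' * S * (R * R') = S' * (S * R) * R' := by simp only [Matrix.mul_assoc]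
      _ = C ^ l * (S' * R') := by rw [h.sr, ← h'.sap, Matrix.mul_assoc]
      _ = C ^ (l + l') := by rw [h'.sr, ← pow_add]
  · rw [← Matrix.mul_assoc, h.ar, Matrix.mul_assoc, h'.ar, Matrix.mul_assoc]
  · rw [Matrix.mul_assoc, h.sa, ← Matrix.mul_assoc, h'.sa, Matrix.mul_assoc]

theorem SD.pow {A : Matrix α α ℕ} {B : Matrix β β ℕ} {R : Matrix α β ℕ} {S : Matrix β α ℕ}
    {l : ℕ} (h : SD A B R S l) (t : ℕ) : SD A B (A ^ t * R) S (t + l) := by
  refine ⟨?_, ?_, ?_, h.sa⟩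
  · rw [Matrix.mul_assoc, h.rs, ← pow_add]
  · rw [h.arp, ← Matrix.mul_assoc, h.sr, ← pow_add, add_comm]
  · rw [Matrix.mul_assoc, ← h.ar, ← Matrix.mul_assoc, ← Matrix.mul_assoc, ← pow_succ',
      ← pow_succ]

theorem sd_of_ch {X Y : Obj} {ρ : Matrix X.ι Y.ι ℕ} (c : CH X Y ρ) :
    ∃ (ρs : Matrix Y.ι X.ι ℕ) (a : ℕ), SD X.M Y.M ρ ρs a ∧ CH Y X ρs := by
  obtain ⟨h1, ρs, a, h2, h3, h4, h5⟩ := c.rev'
  exact ⟨ρs, a, ⟨h3, h4, h1, h5.symm⟩, h2⟩

/-- the states `i` and `j` belong to matched components -/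
def Mt (A : Matrix α α ℕ) (R : Matrix α β ℕ) (S : Matrix β α ℕ) (i : α) (j : β) : Prop :=
  (∃ k : ℕ, (A ^ k * R) i j ≠ 0) ∧ ∃ k : ℕ, (S * A ^ k) j i ≠ 0

section

variable {A : Matrix α α ℕ} {B : Matrix β β ℕ} {C : Matrix δ δ ℕ} {R : Matrix α β ℕ}
  {S : Matrix β α ℕ} {l : ℕ} {R' : Matrix β δ ℕ} {S' : Matrix δ β ℕ} {l' : ℕ}

theorem Mt.symm (h : SD A B R S l) {i : α} {j : β} (hm : Mt A R S i j) : Mt B S R j i := by
  obtain ⟨⟨k, hk⟩, k', hk'⟩ := hm
  exact ⟨⟨k', by rw [h.sap]; exact hk'⟩, k, by rw [← h.arp]; exact hk⟩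

theorem Mt.exists (h : SD A B R S l) {i : α} (hi : Rec A i) : ∃ j, Mt A R S i j ∧ Rec B j := by
  obtain ⟨M, hM, _, hMi⟩ := hi.large (l + 1)
  obtain ⟨k, rfl⟩ : ∃ k, M = l + (k + 1) := ⟨M - l - 1, by omega⟩
  rw [pow_add, ← h.rs, Matrix.mul_assoc] at hMi
  obtain ⟨j, h1, h2⟩ := mex hMi
  refine ⟨j, ⟨⟨0, by rw [pow_zero, Matrix.one_mul]; exact h1⟩, k + 1, h2⟩, l + (k + 1), by omega,
    ?_⟩
  rw [pow_add, ← h.sr, Matrix.mul_assoc, ← h.arp, ← Matrix.mul_assoc]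
  exact mne h2 h1

theorem Mt.back (h : SD A B R S l) {i : α} {j : β} (hm : Mt A R S i j) {y : β}
    (hy : ∃ k : ℕ, (A ^ k * R) i y ≠ 0) : Rch B j y := by
  obtain ⟨_, k', hk'⟩ := hm
  obtain ⟨k, hk⟩ := hy
  refine ⟨k' + k + l, ?_⟩
  have e : B ^ (k' + k + l) = S * A ^ k' * (A ^ k * R) := by
    rw [← h.sap, h.arp, Matrix.mul_assoc, ← Matrix.mul_assoc S, h.sr, ← pow_add, ← pow_add]
    congr 1; ring
  rw [e]
  exact mne hk' hk

theorem Mt.unique (h : SD A B R S l) {i : α} {j j' : β} (hm : Mt A R S i j)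
    (hm' : Mt A R S i j') : Mut B j j' := ⟨hm.back h hm'.1, hm'.back h hm.1⟩

theorem Mt.move (h : SD A B R S l) {i i' : α} {j j' : β} (hm : Mt A R S i j)
    (hi : Mut A i i') (hj : Mut B j j') : Mt A R S i' j' := by
  obtain ⟨⟨k, hk⟩, k', hk'⟩ := hm
  obtain ⟨⟨a, ha⟩, a', ha'⟩ := hi
  obtain ⟨⟨b, hb⟩, b', hb'⟩ := hj
  refine ⟨⟨a' + k + b, ?_⟩, b' + k' + a, ?_⟩
  · have e : A ^ (a' + k + b) * R = A ^ a' * (A ^ k * R) * B ^ b := by
      rw [pow_add, Matrix.mul_assoc, h.arp b, pow_add]; simp only [Matrix.mul_assoc]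
    rw [e]
    exact mne (mne ha' hk) hb
  · have e : S * A ^ (b' + k' + a) = B ^ b' * (S * A ^ k') * A ^ a := by
      rw [pow_add, pow_add, ← Matrix.mul_assoc, ← Matrix.mul_assoc, ← h.sap b']
      simp only [Matrix.mul_assoc]
    rw [e]
    exact mne (mne hb' hk') ha

theorem Mt.trans (h : SD A B R S l) (h' : SD B C R' S' l') {i : α} {j : β} {k : δ}
    (hm : Mt A R S i j) (hm' : Mt B R' S' j k) : Mt A (R * R') (S' * S) i k := by
  obtain ⟨⟨a, ha⟩, a', ha'⟩ := hm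
  obtain ⟨⟨b, hb⟩, b', hb'⟩ := hm'
  refine ⟨⟨a + b, ?_⟩, b' + a', ?_⟩
  · have e : A ^ (a + b) * (R * R') = A ^ a * R * (B ^ b * R') := by
      rw [pow_add, ← Matrix.mul_assoc, Matrix.mul_assoc (A ^ a), h.arp b]
      simp only [Matrix.mul_assoc]
    rw [e]
    exact mne ha hb
  · have e : S' * S * A ^ (b' + a') = S' * B ^ b' * (S * A ^ a') := by
      rw [pow_add, Matrix.mul_assoc, ← Matrix.mul_assoc S, ← h.sap b']
      simp only [Matrix.mul_assoc]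
    rw [e]
    exact mne hb' ha'

/-- the matching does not depend on the second matrix -/
theorem Mt.change {S1 : Matrix β α ℕ} {l1 : ℕ} (h : SD A B R S l) (h1 : SD A B R S1 l1) {i : α}
    {j : β} (hi : Rec A i) (hm : Mt A R S i j) : Mt A R S1 i j := by
  obtain ⟨hk, k', hk'⟩ := hm
  refine ⟨hk, ?_⟩
  obtain ⟨N, hN, _, hNi⟩ := hi.large l1
  obtain ⟨w, rfl⟩ : ∃ w, N = l1 + w := ⟨N - l1, by omega⟩
  refine ⟨l + k' + w, ?_⟩
  have e1 : S * A ^ l1 = S1 * A ^ l := by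
    rw [← h1.rs, ← Matrix.mul_assoc, h.sr, h1.sap]
  have e : S1 * A ^ (l + k' + w) = S * A ^ k' * A ^ (l1 + w) := by
    calc S1 * A ^ (l + k' + w) = S1 * A ^ l * A ^ (k' + w) := by
          rw [add_assoc, pow_add A l, ← Matrix.mul_assoc]
      _ = S * (A ^ l1 * A ^ (k' + w)) := by rw [← e1, Matrix.mul_assoc]
      _ = S * (A ^ k' * A ^ (l1 + w)) := by
          rw [← pow_add, ← pow_add]; congr 2; ring
      _ = S * A ^ k' * A ^ (l1 + w) := by rw [Matrix.mul_assoc]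
  rw [e]
  exact mne hk' hNi

theorem Mt.powR (t : ℕ) {i : α} {j : β} (hi : Rec A i) (hm : Mt A R S i j) :
    Mt A (A ^ t * R) S i j := by
  obtain ⟨⟨k, hk⟩, hk'⟩ := hm
  refine ⟨?_, hk'⟩
  obtain ⟨N, hN, _, hNi⟩ := hi.large t
  obtain ⟨w, rfl⟩ : ∃ w, N = t + w := ⟨N - t, by omega⟩
  refine ⟨w + k, ?_⟩
  have e : A ^ (w + k) * (A ^ t * R) = A ^ (t + w) * (A ^ k * R) := by
    rw [← Matrix.mul_assoc, ← Matrix.mul_assoc, ← pow_add, ← pow_add]
    congr 2; ring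
  rw [e]
  exact mne hNi hk

end

/-- sums over a subtype -/
theorem sum_sub {β : Type} [Fintype β] (p : β → Prop) [Fintype {u // p u}] (f : β → ℕ)
    (h : ∀ y, ¬ p y → f y = 0) : ∑ y, f y = ∑ y : {u // p u}, f y.1 := by
  have e : ∑ y : {u // p u}, f y.1 =
      ∑ w ∈ Finset.univ.map (Function.Embedding.subtype p), f w := by
    rw [Finset.sum_map]; rfl
  rw [e]
  symm
  refine Finset.sum_subset (Finset.subset_univ _) (fun y _ hy => h y (fun hp => hy ?_))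
  rw [Finset.mem_map]
  exact ⟨⟨y, hp⟩, Finset.mem_univ _, rfl⟩

/-- the block of `R` for the components of `i` and `j` -/
def bl (A : Matrix α α ℕ) (B : Matrix β β ℕ) (R : Matrix α β ℕ) (i : α) (j : β) :
    Matrix (compO A i).ι (compO B j).ι ℕ := fun a b => R a.1 b.1

section

variable {A : Matrix α α ℕ} {B : Matrix β β ℕ} {C : Matrix δ δ ℕ} {R : Matrix α β ℕ}
  {S : Matrix β α ℕ} {l : ℕ} {R' : Matrix β δ ℕ} {S' : Matrix δ β ℕ} {l' : ℕ}

theorem bl_mul (h : SD A B R S l) (h' : SD B C R' S' l') {i : α} {j : β} {k : δ}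
    (hm : Mt A R S i j) (hm' : Mt B R' S' j k) :
    bl A C (R * R') i k = bl A B R i j * bl B C R' j k := by
  ext a b
  obtain ⟨x, hx⟩ := a
  obtain ⟨z, hz⟩ := b
  change (R * R') x z = ∑ y : (compO B j).ι, R x y.1 * R' y.1 z
  rw [Matrix.mul_apply]
  refine @sum_sub β _ (fun y => Mut B j y) (compO B j).fin (fun y => R x y * R' y z) ?_
  intro y hy
  by_contra hne
  have h1 : R x y ≠ 0 := fun h0 => hne (by rw [h0, zero_mul])
  have h2 : R' y z ≠ 0 := fun h0 => hne (by rw [h0, mul_zero])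
  apply hy
  obtain ⟨⟨a, ha⟩, _⟩ := hx
  obtain ⟨_, c, hc⟩ := hz
  obtain ⟨_, m, hmm⟩ := hm'
  refine ⟨hm.back h ⟨a, mne ha h1⟩, c + l' + m, ?_⟩
  have e : B ^ (c + l' + m) = R' * C ^ c * (S' * B ^ m) := by
    rw [← h'.arp, ← Matrix.mul_assoc, Matrix.mul_assoc (B ^ c), h'.rs, ← pow_add, ← pow_add]
  rw [e]
  exact mne (mne h2 hc) hmm

theorem sd_pow (A : Matrix α α ℕ) (t : ℕ) : SD A A (A ^ t) 1 t := by
  refine ⟨Matrix.mul_one _, Matrix.one_mul _, ?_, ?_⟩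
  · rw [← pow_succ', ← pow_succ]
  · rw [Matrix.one_mul, Matrix.mul_one]

theorem mt_pow {i : α} (hi : Rec A i) (t : ℕ) : Mt A (A ^ t) 1 i i := by
  obtain ⟨N, hN, _, hNi⟩ := hi.large t
  obtain ⟨w, rfl⟩ : ∃ w, N = w + t := ⟨N - t, by omega⟩
  refine ⟨⟨w, by rw [← pow_add]; exact hNi⟩, 0, ?_⟩
  rw [pow_zero, Matrix.one_mul, Matrix.one_apply_eq]
  exact one_ne_zero

theorem bl_pow {i : α} (hi : Rec A i) (t : ℕ) : bl A A (A ^ t) i i = (compO A i).M ^ t := by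
  induction t with
  | zero =>
    ext a b
    change (A ^ 0) a.1 b.1 = ((compO A i).M ^ 0) a b
    rw [pow_zero, pow_zero]
    by_cases hab : a = b
    · rw [hab, Matrix.one_apply_eq, Matrix.one_apply_eq]
    · rw [Matrix.one_apply_ne hab, Matrix.one_apply_ne (fun h => hab (Subtype.ext h))]
  | succ t ih =>
    have e1 : bl A A (A ^ t * A ^ 1) i i = bl A A (A ^ t) i i * bl A A (A ^ 1) i i :=
      bl_mul (sd_pow A t) (sd_pow A 1) (mt_pow hi t) (mt_pow hi 1)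
    have e2 : bl A A (A ^ 1) i i = (compO A i).M := by rw [pow_one]; rfl
    calc bl A A (A ^ (t + 1)) i i = bl A A (A ^ t * A ^ 1) i i := by rw [← pow_add]
      _ = (compO A i).M ^ t * (compO A i).M := by rw [e1, ih, e2]
      _ = (compO A i).M ^ (t + 1) := (pow_succ _ _).symm

theorem bl_powmul (h : SD A B R S l) {i : α} {j : β} (hi : Rec A i) (hm : Mt A R S i j) (t : ℕ) :
    bl A B (A ^ t * R) i j = (compO A i).M ^ t * bl A B R i j := by
  rw [← bl_pow hi, bl_mul (sd_pow A t) h (mt_pow hi t) hm]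

theorem bl_semi (h : SD A B R S l) {i : α} {j : β} (hi : Rec A i) (hj : Rec B j)
    (hm : Mt A R S i j) : (compO A i).M * bl A B R i j = bl A B R i j * (compO B j).M := by
  have e1 := bl_powmul h hi hm 1
  rw [pow_one, pow_one] at e1
  have e2 : bl B B (B ^ 1) j j = (compO B j).M := by rw [pow_one]; rfl
  have e3 := bl_mul h (sd_pow B 1) hm (mt_pow hj 1)
  rw [e2, pow_one] at e3
  rw [← e1, h.ar, e3]

end

theorem ch_iso3 {X Y : Obj} (e : X.ι ≃ Y.ι) (hM : ∀ a b, Y.M (e a) (e b) = X.M a b)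
    (ρ : Matrix X.ι Y.ι ℕ) (hρ : ∀ a b, ρ a b = if e a = b then 1 else 0) : CH X Y ρ := by
  have h := CH.iso e X.M
  have e1 : X.M.submatrix e.symm e.symm = Y.M := by
    ext a b
    rw [Matrix.submatrix_apply, ← hM, Equiv.apply_symm_apply, Equiv.apply_symm_apply]
  have e2 : (1 : Matrix Y.ι Y.ι ℕ).submatrix e id = ρ := by
    ext a b
    rw [hρ, Matrix.submatrix_apply, Matrix.one_apply]
    rfl
  rw [e1, e2] at h
  exact h

theorem tr_ch {X Y X' Y' : Obj} (e : X.ι ≃ X'.ι) (f : Y.ι ≃ Y'.ι)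
    (hX : ∀ a b, X'.M (e a) (e b) = X.M a b) (hY : ∀ a b, Y'.M (f a) (f b) = Y.M a b)
    (R : Matrix X.ι Y.ι ℕ) (R' : Matrix X'.ι Y'.ι ℕ) (hR : ∀ a b, R' (e a) (f b) = R a b)
    (t : ℕ) (h : CH X' Y' (X'.M ^ t * R')) : CH X Y (X.M ^ t * R) := by
  refine CH.reindex e f X.M Y.M _ ?_
  have e1 : X.M.submatrix e.symm e.symm = X'.M := by
    ext a b
    rw [Matrix.submatrix_apply, ← hX, Equiv.apply_symm_apply, Equiv.apply_symm_apply]
  have e2 : Y.M.submatrix f.symm f.symm = Y'.M := by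
    ext a b
    rw [Matrix.submatrix_apply, ← hY, Equiv.apply_symm_apply, Equiv.apply_symm_apply]
  have e3 : R.submatrix e.symm f.symm = R' := by
    ext a b
    rw [Matrix.submatrix_apply, ← hR, Equiv.apply_symm_apply, Equiv.apply_symm_apply]
  rw [← Matrix.submatrix_mul_equiv (X.M ^ t) R e.symm e.symm f.symm, submatrix_pow, e1, e2, e3]
  exact h

/-- restricting a chain to matched components -/
theorem restrict {X Y : Obj} {ρ : Matrix X.ι Y.ι ℕ} (c : CH X Y ρ) :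
    ∀ (ρs : Matrix Y.ι X.ι ℕ) (a : ℕ), SD X.M Y.M ρ ρs a → ∀ i j, Rec X.M i →
      Mt X.M ρ ρs i j → CH (compO X.M i) (compO Y.M j) (bl X.M Y.M ρ i j) := by
  induction c with
  | refl X =>
    intro ρs a h i j hi hm
    obtain ⟨⟨k, hk⟩, k', hk'⟩ := hm
    rw [Matrix.mul_one] at hk
    have h1 := h.rs
    rw [Matrix.one_mul] at h1
    rw [h1, ← pow_add] at hk'
    have hij : Mut X.M i j := ⟨⟨k, hk⟩, _, hk'⟩
    let e : (compO X.M i).ι ≃ (compO X.M j).ι :=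
      { toFun := fun x => ⟨x.1, hij.symm.trans x.2⟩
        invFun := fun x => ⟨x.1, hij.trans x.2⟩
        left_inv := fun x => rfl
        right_inv := fun x => rfl }
    refine ch_iso3 e (fun a b => rfl) _ ?_
    intro a b
    change (1 : Matrix X.ι X.ι ℕ) a.1 b.1 = _
    rw [Matrix.one_apply]
    by_cases hab : a.1 = b.1
    · have hab' : e a = b := Subtype.ext hab
      rw [if_pos hab, if_pos hab']
    · have hab' : e a ≠ b := fun h => hab (congrArg Subtype.val h)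
      rw [if_neg hab, if_neg hab']
  | step X Y Z R S ρ' h1 h2 hc ih =>
    intro σ a h i k hi hm
    obtain ⟨ρs, a', h', hc'⟩ := sd_of_ch hc
    have hRS : SD X.M Y.M R S 1 := by
      refine ⟨by rw [pow_one, h1], by rw [pow_one, h2], ?_, ?_⟩
      · rw [h1, h2, Matrix.mul_assoc]
      · rw [h1, h2, Matrix.mul_assoc]
    obtain ⟨j, hj, rj⟩ := Mt.exists hRS hi
    obtain ⟨k', hk', rk⟩ := Mt.exists h' rj
    have m1 := Mt.trans hRS h' hj hk'
    have m2 : Mt X.M (R * ρ') (ρs * S) i k := Mt.change h (hRS.trans h') hi hm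
    have m3 := Mt.unique (hRS.trans h') m1 m2
    have m4 : Mt Y.M ρ' ρs j k := Mt.move h' hk' (Mut.refl _ _) m3
    have c2 := ih ρs a' h' j k rj m4
    have c1 : CH (compO X.M i) (compO Y.M j) (bl X.M Y.M R i j) := by
      refine CH.single _ (bl Y.M X.M S j i) ?_ ?_
      · rw [← bl_mul hRS hRS.symm hj (hj.symm hRS), ← h1]; rfl
      · rw [← bl_mul hRS.symm hRS (hj.symm hRS) hj, ← h2]; rfl
    rw [bl_mul hRS h' hj m4]
    exact c1.trans c2

end Run7.h850.SS
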