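import Pool.Agent.H812R2.SSE.Comp

/-!
# Moving the off-diagonal block of a block triangular matrix

`Xm Θ n B` is the matrix with diagonal blocks `Θ`, `B` and upper right block `n`.
-/

set_option autoImplicit false
set_option linter.unusedSectionVars false
set_option linter.unusedVariables false

namespace Run7.h850.SS

open Matrix Pool.Agent.H812R2.SSE

variable {γ β : Type} [Fintype γ] [DecidableEq γ] [Fintype β] [DecidableEq β]

/-- the block triangular object -/
abbrev XO (Θ : Matrix γ γ ℕ) (n : Matrix γ β ℕ) (B : Matrix β β ℕ) : Obj :=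
  ⟨γ ⊕ β, fromBlocks Θ n 0 B⟩

/-- a single move -/
theorem move (Θ : Matrix γ γ ℕ) (n n0 E : Matrix γ β ℕ) (B : Matrix β β ℕ)
    (h : n = n0 + E * B) :
    CH (XO Θ n B) (XO Θ (n0 + Θ * E) B) (fromBlocks 1 E 0 1) := by
  refine CH.single (X := XO Θ n B) (Y := XO Θ (n0 + Θ * E) B) _ (fromBlocks Θ n0 0 B) ?_ ?_
  · change fromBlocks Θ n 0 B = _
    rw [Matrix.fromBlocks_multiply, h]
    simp
  · change fromBlocks Θ (n0 + Θ * E) 0 B = _
    rw [Matrix.fromBlocks_multiply, add_comm]
    simp

/-- `n1` can be moved to `n2` along `q`, up to a power -/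
def Mv (Θ : Matrix γ γ ℕ) (B : Matrix β β ℕ) (n1 n2 q : Matrix γ β ℕ) (T : ℕ) : Prop :=
  CH (XO Θ n1 B) (XO Θ n2 B) ((fromBlocks Θ n1 0 B) ^ T * fromBlocks 1 q 0 1)

theorem semi {α δ : Type} [Fintype α] [DecidableEq α] [Fintype δ] [DecidableEq δ]
    (A : Matrix α α ℕ) (C : Matrix δ δ ℕ) (R : Matrix α δ ℕ) (h : A * R = R * C) (t : ℕ) :
    R * C ^ t = A ^ t * R := (semiconj_pow A C R h t).symm

theorem Mv.right {Θ : Matrix γ γ ℕ} {B : Matrix β β ℕ} {n1 n2 q : Matrix γ β ℕ} {T : ℕ}
    (he : n2 + q * B = n1 + Θ * q) (h : Mv Θ B (n1 * B) (n2 * B) (q * B) T) :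
    Mv Θ B n1 n2 q (T + 1) := by
  unfold Mv at h ⊢
  have c1 : CH (XO Θ n1 B) (XO Θ (n1 * B) B) (fromBlocks 1 0 0 B) := by
    refine CH.single (X := XO Θ n1 B) (Y := XO Θ (n1 * B) B) _ (fromBlocks Θ n1 0 1) ?_ ?_
    · change fromBlocks Θ n1 0 B = _
      rw [Matrix.fromBlocks_multiply]; simp
    · change fromBlocks Θ (n1 * B) 0 B = _
      rw [Matrix.fromBlocks_multiply]; simp
  have c2 : CH (XO Θ (n2 * B) B) (XO Θ n2 B) (fromBlocks Θ n2 0 1) := by
    refine CH.single (X := XO Θ (n2 * B) B) (Y := XO Θ n2 B) _ (fromBlocks 1 0 0 B) ?_ ?_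
    · change fromBlocks Θ (n2 * B) 0 B = _
      rw [Matrix.fromBlocks_multiply]; simp
    · change fromBlocks Θ n2 0 B = _
      rw [Matrix.fromBlocks_multiply]; simp
  have c := (c1.trans h).trans c2
  convert c using 1
  have hs : fromBlocks Θ n1 0 B * fromBlocks (1 : Matrix γ γ ℕ) 0 0 B =
      fromBlocks (1 : Matrix γ γ ℕ) 0 0 B * fromBlocks Θ (n1 * B) 0 B := by
    rw [Matrix.fromBlocks_multiply, Matrix.fromBlocks_multiply]; simp
  symm
  calc (fromBlocks (1 : Matrix γ γ ℕ) 0 0 B) * ((fromBlocks Θ (n1 * B) 0 B) ^ T *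
        fromBlocks 1 (q * B) 0 1) * fromBlocks Θ n2 0 1
      = ((fromBlocks (1 : Matrix γ γ ℕ) 0 0 B) * (fromBlocks Θ (n1 * B) 0 B) ^ T) *
        (fromBlocks 1 (q * B) 0 1 * fromBlocks Θ n2 0 1) := by simp only [Matrix.mul_assoc]
    _ = (fromBlocks Θ n1 0 B) ^ T * (fromBlocks (1 : Matrix γ γ ℕ) 0 0 B *
        (fromBlocks 1 (q * B) 0 1 * fromBlocks Θ n2 0 1)) := by
        rw [semi _ _ _ hs, Matrix.mul_assoc]
    _ = (fromBlocks Θ n1 0 B) ^ T * (fromBlocks Θ n1 0 B * fromBlocks 1 q 0 1) := by
        congr 1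
        simp only [Matrix.fromBlocks_multiply]
        simp only [Matrix.one_mul, Matrix.mul_one, Matrix.mul_zero, Matrix.zero_mul, add_zero,
          zero_add]
        rw [he, add_comm]
    _ = _ := by rw [pow_succ, Matrix.mul_assoc]

theorem Mv.left {Θ : Matrix γ γ ℕ} {B : Matrix β β ℕ} {n1 n2 q : Matrix γ β ℕ} {T : ℕ}
    (he : n2 + q * B = n1 + Θ * q) (h : Mv Θ B (Θ * n1) (Θ * n2) (Θ * q) T) :
    Mv Θ B n1 n2 q (T + 1) := by
  unfold Mv at h ⊢
  have c1 : CH (XO Θ n1 B) (XO Θ (Θ * n1) B) (fromBlocks 1 n1 0 B) := by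
    refine CH.single (X := XO Θ n1 B) (Y := XO Θ (Θ * n1) B) _ (fromBlocks Θ 0 0 1) ?_ ?_
    · change fromBlocks Θ n1 0 B = _
      rw [Matrix.fromBlocks_multiply]; simp
    · change fromBlocks Θ (Θ * n1) 0 B = _
      rw [Matrix.fromBlocks_multiply]; simp
  have c2 : CH (XO Θ (Θ * n2) B) (XO Θ n2 B) (fromBlocks Θ 0 0 1) := by
    refine CH.single (X := XO Θ (Θ * n2) B) (Y := XO Θ n2 B) _ (fromBlocks 1 n2 0 B) ?_ ?_
    · change fromBlocks Θ (Θ * n2) 0 B = _
      rw [Matrix.fromBlocks_multiply]; simp
    · change fromBlocks Θ n2 0 B = _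
      rw [Matrix.fromBlocks_multiply]; simp
  have c := (c1.trans h).trans c2
  convert c using 1
  have hs : fromBlocks Θ n1 0 B * fromBlocks (1 : Matrix γ γ ℕ) n1 0 B =
      fromBlocks (1 : Matrix γ γ ℕ) n1 0 B * fromBlocks Θ (Θ * n1) 0 B := by
    rw [Matrix.fromBlocks_multiply, Matrix.fromBlocks_multiply]; simp
  symm
  calc (fromBlocks (1 : Matrix γ γ ℕ) n1 0 B) * ((fromBlocks Θ (Θ * n1) 0 B) ^ T *
        fromBlocks 1 (Θ * q) 0 1) * fromBlocks Θ 0 0 1
      = ((fromBlocks (1 : Matrix γ γ ℕ) n1 0 B) * (fromBlocks Θ (Θ * n1) 0 B) ^ T) *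
        (fromBlocks 1 (Θ * q) 0 1 * fromBlocks Θ 0 0 1) := by simp only [Matrix.mul_assoc]
    _ = (fromBlocks Θ n1 0 B) ^ T * (fromBlocks (1 : Matrix γ γ ℕ) n1 0 B *
        (fromBlocks 1 (Θ * q) 0 1 * fromBlocks Θ 0 0 1)) := by
        rw [semi _ _ _ hs, Matrix.mul_assoc]
    _ = (fromBlocks Θ n1 0 B) ^ T * (fromBlocks Θ n1 0 B * fromBlocks 1 q 0 1) := by
        congr 1
        simp only [Matrix.fromBlocks_multiply]
        simp only [Matrix.one_mul, Matrix.mul_one, Matrix.mul_zero, Matrix.zero_mul, add_zero,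
          zero_add]
    _ = _ := by rw [pow_succ, Matrix.mul_assoc]

theorem Mv.scale {Θ : Matrix γ γ ℕ} {B : Matrix β β ℕ} {T : ℕ} :
    ∀ (j k : ℕ) {n1 n2 q : Matrix γ β ℕ} (_ : n2 + q * B = n1 + Θ * q)
      (_ : Mv Θ B (Θ ^ j * n1 * B ^ k) (Θ ^ j * n2 * B ^ k) (Θ ^ j * q * B ^ k) T),
      Mv Θ B n1 n2 q (T + j + k) := by
  intro j
  induction j with
  | zero =>
    intro k
    induction k with
    | zero => intro n1 n2 q he h; simpa using h
    | succ k ih =>
      intro n1 n2 q he h
      have he' : n2 * B + q * B * B = n1 * B + Θ * (q * B) := by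
        rw [← Matrix.add_mul, he, Matrix.add_mul, Matrix.mul_assoc]
      have h' := ih he' (by
        convert h using 1 <;>
        · rw [pow_zero, Matrix.one_mul, Matrix.one_mul, pow_succ', Matrix.mul_assoc])
      exact h'.right he
  | succ j ih =>
    intro k n1 n2 q he h
    have he' : Θ * n2 + Θ * q * B = Θ * n1 + Θ * (Θ * q) := by
      rw [Matrix.mul_assoc, ← Matrix.mul_add, he, Matrix.mul_add]
    have h' := ih k he' (by
      convert h using 1 <;>
      · rw [pow_succ]; simp only [Matrix.mul_assoc])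
    have h2 := h'.left he
    have e : T + (j + 1) + k = T + j + k + 1 := by omega
    rw [e]
    exact h2

/-- the sum of all entries -/
def tot {α δ : Type} [Fintype α] [Fintype δ] (A : Matrix α δ ℕ) : ℕ := ∑ i, ∑ j, A i j

theorem col_le {α δ : Type} [Fintype α] [Fintype δ] [DecidableEq δ] (A : Matrix α δ ℕ) (j : δ) :
    ∑ i, A i j ≤ tot A :=
  Finset.sum_le_sum fun i _ => Finset.single_le_sum (f := fun j => A i j)
    (fun _ _ => Nat.zero_le _) (Finset.mem_univ j)

theorem row_le {α δ : Type} [Fintype α] [DecidableEq α] [Fintype δ] (A : Matrix α δ ℕ) (i : α) :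
    ∑ j, A i j ≤ tot A :=
  Finset.single_le_sum (f := fun i => ∑ j, A i j) (fun _ _ => Nat.zero_le _) (Finset.mem_univ i)

theorem le_tot {α δ : Type} [Fintype α] [DecidableEq α] [Fintype δ] [DecidableEq δ]
    (A : Matrix α δ ℕ) (i : α) (j : δ) : A i j ≤ tot A :=
  (Finset.single_le_sum (f := fun j => A i j) (fun _ _ => Nat.zero_le _)
    (Finset.mem_univ j)).trans (row_le A i)

/-- the discrete path -/
theorem path (Θ : Matrix γ γ ℕ) (B : Matrix β β ℕ) (n1 n2 q : Matrix γ β ℕ) (U : β → Prop)
    (hU : ∀ b b', B b b' ≠ 0 → U b → U b') (hq : ∀ i b, q i b ≠ 0 → U b)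
    (h12 : ∀ i b, U b → (tot B + tot Θ ≤ n1 i b ∧ tot B + tot Θ ≤ n2 i b) ∨
      (1 ≤ n1 i b ∧ (∀ b', U b' → B b' b = if b' = b then 1 else 0) ∧
        ∀ c, Θ i c = if c = i then 1 else 0))
    (he : n2 + q * B = n1 + Θ * q) :
    CH (XO Θ n1 B) (XO Θ n2 B) (fromBlocks 1 q 0 1) := by
  obtain ⟨L, hL⟩ : ∃ L, L = tot q + 1 := ⟨_, rfl⟩
  have hL0 : 0 < L := by omega
  have hqL : ∀ i b, q i b ≤ L := fun i b => (le_tot q i b).trans (by omega)
  obtain ⟨r, hr⟩ : ∃ r : ℕ → Matrix γ β ℕ, ∀ j i b, r j i b = j * q i b / L :=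
    ⟨fun j i b => j * q i b / L, fun _ _ _ => rfl⟩
  have hr1 : ∀ j i b, L * r j i b ≤ j * q i b := fun j i b => by
    rw [hr]; exact Nat.mul_div_le _ _
  have hr2 : ∀ j i b, j * q i b ≤ L * r j i b + L := fun j i b => by
    rw [hr]
    have := Nat.lt_mul_div_succ (j * q i b) hL0
    have h3 : L * (j * q i b / L + 1) = L * (j * q i b / L) + L := by ring
    omega
  have key : ∀ j, j ≤ L → ∃ n : Matrix γ β ℕ, n + r j * B = n1 + Θ * r j ∧
      CH (XO Θ n1 B) (XO Θ n B) (fromBlocks 1 (r j) 0 1) := by
    intro j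
    induction j with
    | zero =>
      intro _
      have h0 : r 0 = 0 := by
        ext i b
        rw [hr]; simp
      refine ⟨n1, by rw [h0]; simp, ?_⟩
      rw [h0, Matrix.fromBlocks_one]
      exact CH.refl _
    | succ j ih =>
      intro hj
      obtain ⟨n, hn, hc⟩ := ih (by omega)
      -- the increment
      have hmono : ∀ i b, r j i b ≤ r (j + 1) i b := fun i b => by
        rw [hr, hr]
        exact Nat.div_le_div_right (Nat.mul_le_mul_right _ (by omega))
      obtain ⟨E, hE⟩ : ∃ E : Matrix γ β ℕ, ∀ i b, r (j + 1) i b = r j i b + E i b :=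
        ⟨fun i b => r (j + 1) i b - r j i b, fun i b => (Nat.add_sub_cancel' (hmono i b)).symm⟩
      have hE1 : ∀ i b, E i b ≤ 1 := by
        intro i b
        have h3 : r (j + 1) i b ≤ r j i b + 1 := by
          rw [hr, hr]
          have : (j + 1) * q i b ≤ j * q i b + L := by
            have := hqL i b
            rw [Nat.add_mul]; omega
          calc (j + 1) * q i b / L ≤ (j * q i b + L) / L := Nat.div_le_div_right this
            _ = j * q i b / L + 1 := Nat.add_div_right _ hL0
        have := hE i b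
        omega
      have hEU : ∀ i b, E i b ≠ 0 → U b := by
        intro i b h
        apply hq i b
        intro h0
        apply h
        have h3 := hE i b
        rw [hr, hr, h0] at h3
        simp at h3
        exact h3.symm
      have hEB : ∀ i b, (E * B) i b ≤ n i b := by
        intro i b'
        by_cases hb : U b'
        · rcases h12 i b' hb with ⟨h1b, h2b⟩ | ⟨h1b, hB1, hΘ1⟩
          swap
          · -- a static entry
            have s1 : ∀ X : Matrix γ β ℕ, (∀ b, X i b ≠ 0 → U b) → (X * B) i b' = X i b' := by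
              intro X hX
              rw [Matrix.mul_apply, Finset.sum_eq_single b']
              · rw [hB1 b' hb, if_pos rfl, mul_one]
              · intro b _ hbb
                by_cases hX0 : X i b = 0
                · rw [hX0, zero_mul]
                · rw [hB1 b (hX b hX0), if_neg hbb, mul_zero]
              · intro h; exact absurd (Finset.mem_univ _) h
            have s2 : (Θ * r j) i b' = r j i b' := by
              rw [Matrix.mul_apply, Finset.sum_eq_single i]
              · rw [hΘ1, if_pos rfl, one_mul]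
              · intro c _ hc
                rw [hΘ1, if_neg hc, zero_mul]
              · intro h; exact absurd (Finset.mem_univ _) h
            have s3 : n i b' + (r j * B) i b' = n1 i b' + (Θ * r j) i b' := by
              have := congrFun (congrFun hn i) b'
              exact this
            rw [s2, s1 (r j) (fun b h0 => hq i b (fun h4 => h0 (by rw [hr, h4]; simp)))] at s3
            rw [s1 E (fun b h0 => hEU i b h0)]
            have := hE1 i b'
            omega
          have k1 : (E * B) i b' ≤ tot B := by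
            rw [Matrix.mul_apply]
            refine le_trans (Finset.sum_le_sum fun b _ => ?_) (col_le B b')
            calc E i b * B b b' ≤ 1 * B b b' := Nat.mul_le_mul_right _ (hE1 i b)
              _ = B b b' := one_mul _
          -- the lower bound for n
          have k2 : L * (r j * B) i b' ≤ j * (q * B) i b' := by
            rw [Matrix.mul_apply, Matrix.mul_apply, Finset.mul_sum, Finset.mul_sum]
            refine Finset.sum_le_sum fun b _ => ?_
            rw [← mul_assoc, ← mul_assoc]
            exact Nat.mul_le_mul_right _ (hr1 j i b)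
          have k3 : j * (Θ * q) i b' ≤ L * (Θ * r j) i b' + L * tot Θ := by
            have k4 : j * (Θ * q) i b' ≤ L * (Θ * r j) i b' + L * ∑ c, Θ i c := by
              rw [Matrix.mul_apply, Matrix.mul_apply, Finset.mul_sum, Finset.mul_sum,
                Finset.mul_sum, ← Finset.sum_add_distrib]
              refine Finset.sum_le_sum fun c _ => ?_
              have := Nat.mul_le_mul_left (Θ i c) (hr2 j c b')
              calc j * (Θ i c * q c b') = Θ i c * (j * q c b') := by ring
                _ ≤ Θ i c * (L * r j c b' + L) := this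
                _ = L * (Θ i c * r j c b') + L * Θ i c := by ring
            exact k4.trans (Nat.add_le_add_left (Nat.mul_le_mul_left _ (row_le Θ i)) _)
          have k5 : n i b' + (r j * B) i b' = n1 i b' + (Θ * r j) i b' := by
            have := congrFun (congrFun hn i) b'
            exact this
          have k6 : n2 i b' + (q * B) i b' = n1 i b' + (Θ * q) i b' := by
            have := congrFun (congrFun he i) b'
            exact this
          have k7 := h1b
          have k8 := h2b
          have k9 : L * tot B ≤ L * n i b' := by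
            have e1 : L * n i b' + L * (r j * B) i b' = L * n1 i b' + L * (Θ * r j) i b' := by
              rw [← Nat.mul_add, k5, Nat.mul_add]
            have e2 : j * n2 i b' + j * (q * B) i b' = j * n1 i b' + j * (Θ * q) i b' := by
              rw [← Nat.mul_add, k6, Nat.mul_add]
            obtain ⟨w, hw⟩ : ∃ w, L = j + w := ⟨L - j, by omega⟩
            have e3 : w * (tot B + tot Θ) ≤ w * n1 i b' := Nat.mul_le_mul_left _ k7
            have e4 : j * (tot B + tot Θ) ≤ j * n2 i b' := Nat.mul_le_mul_left _ k8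
            have e5 : L * n1 i b' = j * n1 i b' + w * n1 i b' := by rw [hw]; ring
            have e6 : L * (tot B + tot Θ) = j * (tot B + tot Θ) + w * (tot B + tot Θ) := by
              rw [hw]; ring
            have e7 : L * (tot B + tot Θ) = L * tot B + L * tot Θ := by ring
            omega
          exact k1.trans (Nat.le_of_mul_le_mul_left k9 hL0)
        · have : (E * B) i b' = 0 := by
            by_contra hne
            obtain ⟨b, hb1, hb2⟩ := mul_ne_zero_entry _ _ _ _ hne
            exact hb (hU b b' hb2 (hEU i b hb1))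
          rw [this]; exact Nat.zero_le _
      obtain ⟨n0, hn0⟩ : ∃ n0 : Matrix γ β ℕ, n = n0 + E * B :=
        ⟨fun i b => n i b - (E * B) i b, by
          ext i b
          have := hEB i b
          change n i b = n i b - (E * B) i b + (E * B) i b
          omega⟩
      have hrr : r (j + 1) = r j + E := by
        ext i b; exact hE i b
      refine ⟨n0 + Θ * E, ?_, ?_⟩
      · rw [hrr, Matrix.add_mul, Matrix.mul_add, ← add_assoc n1, ← hn, hn0]
        abel
      · have c := hc.trans (move Θ n n0 E B hn0)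
        convert c using 1
        rw [hrr, Matrix.fromBlocks_multiply]
        simp [add_comm]
  obtain ⟨n, hn, hc⟩ := key L le_rfl
  have hrL : r L = q := by
    ext i b
    rw [hr]
    exact Nat.mul_div_cancel_left _ hL0
  rw [hrL] at hn hc
  have : n = n2 := by
    have h3 : n + q * B = n2 + q * B := by rw [hn, he]
    exact add_right_cancel h3
  rw [← this]
  exact hc

end Run7.h850.SS
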