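import Pool.Agent.Run7.h850.SS.Core

/-!
# Reduction to matrices with all components in the family, and transfer
-/

set_option autoImplicit false
set_option linter.unusedSectionVars false
set_option linter.unusedVariables false

namespace Run7.h850.SS

open Matrix Pool.Agent.H812R2.SSE

variable {P : Obj → Prop}

/-- on no closed path -/
def Wand {α : Type} [Fintype α] [DecidableEq α] (A : Matrix α α ℕ) (i : α) : Prop :=
  ∀ k, 1 ≤ k → (A ^ k) i i = 0

/-- joined by a chain to a member of the family -/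
def Sg (P : Obj → Prop) (X : Obj) : Prop := ∃ (Y : Obj) (ρ : Matrix X.ι Y.ι ℕ), P Y ∧ CH X Y ρ

theorem Sg.of_ch {X Y : Obj} {ρ : Matrix X.ι Y.ι ℕ} (h : CH X Y ρ) (hY : Sg P Y) : Sg P X := by
  obtain ⟨Z, ρ', hZ, c⟩ := hY
  exact ⟨Z, _, hZ, h.trans c⟩

theorem fam_iso' (hP : Fam P) {X : Obj} {α : Type} [iF : Fintype α] [iD : DecidableEq α]
    (e : X.ι ≃ α) (hX : P X) (M : Matrix α α ℕ) (hM : ∀ a b, M (e a) (e b) = X.M a b) :
    P ⟨α, M⟩ := by
  have h := hP.iso X α e hX
  have e1 : X.M.submatrix e.symm e.symm = M := by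
    ext a b
    rw [Matrix.submatrix_apply, ← hM, Equiv.apply_symm_apply, Equiv.apply_symm_apply]
  rw [e1] at h
  exact h

theorem ch_iso' {X : Obj} {α : Type} [iF : Fintype α] [iD : DecidableEq α] (e : X.ι ≃ α)
    (M : Matrix α α ℕ) (hM : ∀ a b, M (e a) (e b) = X.M a b) :
    ∃ ρ : Matrix X.ι α ℕ, CH X ⟨α, M⟩ ρ := by
  have h := CH.iso e X.M
  have e1 : X.M.submatrix e.symm e.symm = M := by
    ext a b
    rw [Matrix.submatrix_apply, ← hM, Equiv.apply_symm_apply, Equiv.apply_symm_apply]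
  rw [e1] at h
  exact ⟨_, h⟩

theorem gd_blocks (hP : Fam P) {X Y : Obj} (hX : P X) (hY : Gd P Y.M) (Z : Matrix X.ι Y.ι ℕ) :
    Gd P (fromBlocks X.M Z 0 Y.M) := by
  classical
  have q1 : ∀ (k : ℕ) a b, ((fromBlocks X.M Z 0 Y.M) ^ k) (Sum.inl a) (Sum.inl b) =
      (X.M ^ k) a b := by
    intro k a b; rw [block_pow]; rfl
  have q2 : ∀ (k : ℕ) a b, ((fromBlocks X.M Z 0 Y.M) ^ k) (Sum.inr a) (Sum.inr b) =
      (Y.M ^ k) a b := by
    intro k a b; rw [block_pow]; rfl
  have q3 : ∀ (k : ℕ) a b, ((fromBlocks X.M Z 0 Y.M) ^ k) (Sum.inr a) (Sum.inl b) = 0 := by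
    intro k a b; rw [block_pow]; rfl
  rintro (x | y)
  · have hall : ∀ a b, Rch (fromBlocks X.M Z 0 Y.M) (Sum.inl a) (Sum.inl b) := by
      intro a b
      rcases hP.bo X hX with hbo | ⟨hs, _⟩
      · obtain ⟨k0, hk0⟩ := hbo 1
        refine ⟨k0, ?_⟩
        rw [q1]
        have := hk0 k0 le_rfl a b
        omega
      · rw [Subsingleton.elim a b]
        exact Rch.refl _ _
    let ε : X.ι ≃ {j // Mut (fromBlocks X.M Z 0 Y.M) (Sum.inl x) j} :=
      Equiv.ofBijective (fun a => ⟨Sum.inl a, hall x a, hall a x⟩)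
        ⟨fun a b hab => Sum.inl_injective (congrArg Subtype.val hab), fun j => by
          obtain ⟨j, hj⟩ := j
          rcases j with j | j
          · exact ⟨j, rfl⟩
          · obtain ⟨_, k, hk⟩ := hj
            exact absurd (q3 k j x) hk⟩
    exact @fam_iso' P hP X {j // Mut (fromBlocks X.M Z 0 Y.M) (Sum.inl x) j}
      (compO (fromBlocks X.M Z 0 Y.M) (Sum.inl x)).fin
      (compO (fromBlocks X.M Z 0 Y.M) (Sum.inl x)).dec ε hX
      (compO (fromBlocks X.M Z 0 Y.M) (Sum.inl x)).M (fun a b => rfl)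
  · have hR : ∀ a b, Rch (fromBlocks X.M Z 0 Y.M) (Sum.inr a) (Sum.inr b) ↔ Rch Y.M a b := by
      intro a b
      unfold Rch
      simp only [q2]
    let ε : {j // Mut Y.M y j} ≃ {j // Mut (fromBlocks X.M Z 0 Y.M) (Sum.inr y) j} :=
      Equiv.ofBijective (fun a => ⟨Sum.inr a.1, (hR _ _).2 a.2.1, (hR _ _).2 a.2.2⟩)
        ⟨fun a b hab => Subtype.ext (Sum.inr_injective (congrArg Subtype.val hab)), fun j => by
          obtain ⟨j, hj⟩ := j
          rcases j with j | j
          · obtain ⟨⟨k, hk⟩, _⟩ := hj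
            exact absurd (q3 k y j) hk
          · exact ⟨⟨j, (hR _ _).1 hj.1, (hR _ _).1 hj.2⟩, rfl⟩⟩
    exact @fam_iso' P hP (compO Y.M y) {j // Mut (fromBlocks X.M Z 0 Y.M) (Sum.inr y) j}
      (compO (fromBlocks X.M Z 0 Y.M) (Sum.inr y)).fin
      (compO (fromBlocks X.M Z 0 Y.M) (Sum.inr y)).dec ε (hY y)
      (compO (fromBlocks X.M Z 0 Y.M) (Sum.inr y)).M (fun a b => rfl)

/-- passing to the complement of a set of states closed under predecessors -/
theorem good_sub {α : Type} [Fintype α] [DecidableEq α] {A : Matrix α α ℕ}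
    (hA : ∀ i, Wand A i ∨ Sg P (compO A i)) (p : α → Prop)
    (hpred : ∀ w u, A w u ≠ 0 → p u → p w)
    [iF : Fintype {u // ¬ p u}] [iD : DecidableEq {u // ¬ p u}]
    (A1 : Matrix {u // ¬ p u} {u // ¬ p u} ℕ) (hA1 : ∀ u v, A1 u v = A u.1 v.1) :
    ∀ i, Wand A1 i ∨ Sg P (compO A1 i) := by
  classical
  intro i
  have hpredk : ∀ (k : ℕ) w u, (A ^ k) w u ≠ 0 → p u → p w := by
    intro k
    induction k with
    | zero => intro w u h hu; rwa [pow_zero_ne h]
    | succ k ih =>
      intro w u h hu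
      rw [pow_succ] at h
      obtain ⟨v, h1, h2⟩ := mex h
      exact ih w v h1 (hpred v u h2 hu)
  have hfwd : ∀ (k : ℕ) (a b : {u // ¬ p u}), (A1 ^ k) a b ≠ 0 → (A ^ k) a.1 b.1 ≠ 0 := by
    intro k
    induction k with
    | zero =>
      intro a b h
      rw [pow_zero_ne h, pow_zero, Matrix.one_apply_eq]
      exact one_ne_zero
    | succ k ih =>
      intro a b h
      rw [pow_succ] at h
      obtain ⟨w, h1, h2⟩ := mex h
      rw [pow_succ]
      exact mne (ih a w h1) (by rw [← hA1]; exact h2)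
  have hback : ∀ (k : ℕ) (a b : {u // ¬ p u}), (A ^ k) a.1 b.1 ≠ 0 → (A1 ^ k) a b ≠ 0 := by
    intro k
    induction k with
    | zero =>
      intro a b h
      have : a = b := Subtype.ext (pow_zero_ne h)
      rw [this, pow_zero, Matrix.one_apply_eq]
      exact one_ne_zero
    | succ k ih =>
      intro a b h
      rw [pow_succ] at h
      obtain ⟨w, h1, h2⟩ := mex h
      have hw : ¬ p w := fun hw => a.2 (hpredk k a.1 w h1 hw)
      rw [pow_succ]
      exact mne (b := ⟨w, hw⟩) (ih a ⟨w, hw⟩ h1) (by rw [hA1]; exact h2)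
  have hR1 : ∀ a b : {u // ¬ p u}, Rch A1 a b ↔ Rch A a.1 b.1 := by
    intro a b
    constructor
    · rintro ⟨k, hk⟩
      exact ⟨k, hfwd k a b hk⟩
    · rintro ⟨k, hk⟩
      exact ⟨k, hback k a b hk⟩
  have hM1 : ∀ a b : {u // ¬ p u}, Mut A1 a b ↔ Mut A a.1 b.1 := by
    intro a b
    unfold Mut
    rw [hR1, hR1]
  have hcl : ∀ a b : α, ¬ p a → Mut A a b → ¬ p b := by
    rintro a b ha ⟨⟨k, hk⟩, _⟩ hb
    exact ha (hpredk k a b hk hb)
  rcases hA i.1 with h | h
  · left
    intro k hk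
    by_contra hne
    exact hfwd k i i hne (h k hk)
  · right
    let ε : {j : {u // ¬ p u} // Mut A1 i j} ≃ {j // Mut A i.1 j} :=
      { toFun := fun j => ⟨j.1.1, (hM1 _ _).1 j.2⟩
        invFun := fun j => ⟨⟨j.1, hcl i.1 j.1 i.2 j.2⟩, (hM1 _ _).2 j.2⟩
        left_inv := fun j => rfl
        right_inv := fun j => rfl }
    obtain ⟨ρ, c⟩ := @ch_iso' (compO A1 i) {j // Mut A i.1 j} (compO A i.1).fin
      (compO A i.1).dec ε (compO A i.1).M (fun a b => (hA1 a.1 b.1).symm)
    exact Sg.of_ch (X := compO A1 i) (Y := compO A i.1) c h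

theorem reduce3 (hP : Fam P) : ∀ (N : ℕ) (α : Type) [Fintype α] [DecidableEq α]
    (A : Matrix α α ℕ) (_ : ∀ i, Wand A i ∨ Sg P (compO A i)), Fintype.card α = N →
    ∃ (Y : Obj) (ρ : Matrix α Y.ι ℕ), Gd P Y.M ∧ CH ⟨α, A⟩ Y ρ := by
  intro N
  induction N using Nat.strong_induction_on with
  | _ N ih =>
  intro α _ _ A hA hN
  classical
  rcases isEmpty_or_nonempty α with hα | hα
  · exact ⟨⟨α, A⟩, 1, fun i => hα.elim i, CH.refl _⟩
  · obtain ⟨u0, _, hu0⟩ := Finset.exists_min_image (Finset.univ : Finset α)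
      (fun i => (Finset.univ.filter (fun w => Rch A w i)).card)
      (by obtain ⟨a⟩ := hα; exact ⟨a, Finset.mem_univ _⟩)
    obtain ⟨p, hp⟩ : ∃ p : α → Prop, p = fun u => Mut A u0 u := ⟨_, rfl⟩
    have hpred : ∀ w u, A w u ≠ 0 → p u → p w := by
      intro w u hwu hu
      rw [hp] at hu ⊢
      have h1 : (Finset.univ.filter (fun x => Rch A x w)) ⊆
          (Finset.univ.filter (fun x => Rch A x u)) := by
        intro x
        simp only [Finset.mem_filter, Finset.mem_univ, true_and]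
        exact fun h => h.trans (Rch.edge hwu)
      have h2 : (Finset.univ.filter (fun x => Rch A x u)) =
          (Finset.univ.filter (fun x => Rch A x u0)) := by
        ext x
        simp only [Finset.mem_filter, Finset.mem_univ, true_and]
        exact ⟨fun h => h.trans hu.2, fun h => h.trans hu.1⟩
      have h3 : (Finset.univ.filter (fun x => Rch A x u)).card ≤
          (Finset.univ.filter (fun x => Rch A x w)).card := by
        rw [h2]; exact hu0 w (Finset.mem_univ _)
      have h4 := Finset.eq_of_subset_of_card_le h1 h3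
      have h5 : u ∈ Finset.univ.filter (fun x => Rch A x w) := by
        rw [h4]; simp [Rch.refl]
      simp only [Finset.mem_filter, Finset.mem_univ, true_and] at h5
      exact Mut.trans hu ⟨h5, Rch.edge hwu⟩
    rcases hA u0 with hw0 | hs0
    · -- a state on no closed path, with no predecessor
      have hcol : ∀ v, A v u0 = 0 := by
        intro v
        by_contra hne
        have h1 := hpred v u0 hne (by rw [hp]; exact Mut.refl A u0)
        rw [hp] at h1
        obtain ⟨⟨k, hk⟩, _⟩ := h1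
        have h2 : (A ^ (k + 1)) u0 u0 ≠ 0 := by
          rw [pow_succ]; exact mne hk hne
        exact h2 (hw0 (k + 1) (by omega))
      have c := remove A u0 hcol
      have hcard : Fintype.card {u // ¬ (u = u0)} < N := by
        rw [← hN]
        exact Fintype.card_subtype_lt (x := u0) (by simp)
      obtain ⟨Y, ρ, hY, c1⟩ := ih _ hcard {u // ¬ (u = u0)} (fun a b => A a.1 b.1)
        (good_sub hA (fun u => u = u0) (fun w u hwu hu => absurd (hu ▸ hcol w) hwu) _
          (fun _ _ => rfl)) rfl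
      exact ⟨Y, _, hY, CH.trans c c1⟩
    · set C : Matrix {u // p u} {u // p u} ℕ := fun u v => A u.1 v.1 with hC
      set m : Matrix {u // p u} {u // ¬ p u} ℕ := fun u v => A u.1 v.1 with hm
      set A1 : Matrix {u // ¬ p u} {u // ¬ p u} ℕ := fun u v => A u.1 v.1 with hA1
      set e : α ≃ {u // p u} ⊕ {u // ¬ p u} := (Equiv.sumCompl p).symm with he
      have he1 : ∀ u, e.symm (Sum.inl u) = u.1 := fun u => rfl
      have he2 : ∀ u, e.symm (Sum.inr u) = u.1 := fun u => rfl
      have bA : A.submatrix e.symm e.symm = fromBlocks C m 0 A1 := by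
        ext i j
        rcases i with i | i <;> rcases j with j | j
        · rfl
        · rfl
        · simp only [Matrix.submatrix_apply, he1, he2, Matrix.fromBlocks_apply₂₁,
            Matrix.zero_apply]
          by_contra hne
          exact i.2 (hpred i.1 j.1 hne j.2)
        · rfl
      have hcard : Fintype.card {u // ¬ p u} < N := by
        rw [← hN]
        exact Fintype.card_subtype_lt (x := u0) (by
          rw [hp]; simpa using Mut.refl A u0)
      obtain ⟨Y1, ρ1, s1, c1⟩ := ih _ hcard _ A1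
        (good_sub hA p hpred A1 (fun _ _ => rfl)) rfl
      obtain ⟨Y0, ρ0, s0, c0⟩ := hs0
      have d1 := CH.iso e A
      rw [bA] at d1
      have d2 := c1.lift C m
      have c00 : CH ⟨{u // p u}, C⟩ (compO A u0) _ :=
        @CH.iso {u // p u} {j // Mut A u0 j} _ _ (compO A u0).fin (compO A u0).dec
          (Equiv.subtypeEquivRight (fun u => by rw [hp])) C
      obtain ⟨Z', ρ', d3⟩ := (c00.trans c0).replace Y1.M (m * ρ1)
      exact ⟨⟨Y0.ι ⊕ Y1.ι, fromBlocks Y0.M Z' 0 Y1.M⟩, _, gd_blocks hP s0 s1 Z',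
        (d1.trans d2).trans d3⟩

/-- **Realisation theorem** for a good family -/
theorem real_fam {Q : Obj → Prop} (hP : Fam P) (hQ : Fam Q) (hrl : ∀ X Y, P X → Q Y → Rl X Y)
    {α β : Type} [Fintype α] [DecidableEq α] [Fintype β]
    [DecidableEq β] (A : Matrix α α ℕ) (B : Matrix β β ℕ)
    (hA : ∀ i, Wand A i ∨ Sg P (compO A i)) (hB : ∀ i, Wand B i ∨ Sg Q (compO B i))
    (l : ℕ) (hl : 1 ≤ l) (R : Matrix α β ℕ) (S : Matrix β α ℕ) (h1 : R * S = A ^ l)
    (h2 : S * R = B ^ l) (h3 : A * R = R * B) (h4 : S * A = B * S) :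
    ∃ t, CH ⟨α, A⟩ ⟨β, B⟩ (A ^ t * R) := by
  obtain ⟨X', ρ, sA, cA⟩ := reduce3 hP _ α A hA rfl
  obtain ⟨Y', ρ', sB, cB⟩ := reduce3 hQ _ β B hB rfl
  obtain ⟨a1, ρs, a, a2, a3, a4, a5⟩ := cA.rev'
  obtain ⟨b1, ρs', b, b2, b3, b4, b5⟩ := cB.rev'
  set A' := X'.M with hA'
  set B' := Y'.M with hB'
  change A * ρ = ρ * A' at a1
  change ρ * ρs = A ^ a at a3
  change B * ρ' = ρ' * B' at b1
  change ρ' * ρs' = B ^ b at b3
  change A' * ρs = ρs * A at a5
  change B' * ρs' = ρs' * B at b5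
  set R' : Matrix X'.ι Y'.ι ℕ := ρs * (R * ρ') with hR'
  set S' : Matrix Y'.ι X'.ι ℕ := ρs' * (S * ρ) with hS'
  have p1 : R' * S' = A' ^ (a + l + b) := by
    calc R' * S' = ρs * R * (ρ' * ρs') * S * ρ := by rw [hR', hS']; simp only [Matrix.mul_assoc]
      _ = ρs * (R * B ^ b) * S * ρ := by rw [b3]; simp only [Matrix.mul_assoc]
      _ = ρs * (A ^ b * R) * S * ρ := by rw [semiconj_pow A B R h3]
      _ = ρs * A ^ b * (R * S) * ρ := by simp only [Matrix.mul_assoc]
      _ = ρs * A ^ (b + l) * ρ := by rw [h1, Matrix.mul_assoc ρs, ← pow_add]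
      _ = A' ^ (b + l) * ρs * ρ := by rw [semiconj_pow A' A ρs a5]
      _ = A' ^ (a + l + b) := by rw [Matrix.mul_assoc, a4, ← pow_add]; congr 1; ring
  have p2 : S' * R' = B' ^ (a + l + b) := by
    have hS4 : B ^ a * S = S * A ^ a := semiconj_pow B A S h4.symm a
    calc S' * R' = ρs' * S * (ρ * ρs) * R * ρ' := by rw [hR', hS']; simp only [Matrix.mul_assoc]
      _ = ρs' * (S * A ^ a) * R * ρ' := by rw [a3]; simp only [Matrix.mul_assoc]
      _ = ρs' * (B ^ a * S) * R * ρ' := by rw [hS4]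
      _ = ρs' * B ^ a * (S * R) * ρ' := by simp only [Matrix.mul_assoc]
      _ = ρs' * B ^ (a + l) * ρ' := by rw [h2, Matrix.mul_assoc ρs', ← pow_add]
      _ = B' ^ (a + l) * ρs' * ρ' := by rw [semiconj_pow B' B ρs' b5]
      _ = B' ^ (a + l + b) := by rw [Matrix.mul_assoc, b4, ← pow_add]
  have p3 : A' * R' = R' * B' := by
    calc A' * R' = (A' * ρs) * (R * ρ') := by rw [hR', Matrix.mul_assoc]
      _ = ρs * (A * R) * ρ' := by rw [a5]; simp only [Matrix.mul_assoc]
      _ = ρs * R * (B * ρ') := by rw [h3]; simp only [Matrix.mul_assoc]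
      _ = R' * B' := by rw [b1, hR']; simp only [Matrix.mul_assoc]
  have p4 : S' * A' = B' * S' := by
    symm
    calc B' * S' = (B' * ρs') * (S * ρ) := by rw [hS', Matrix.mul_assoc]
      _ = ρs' * (B * S) * ρ := by rw [b5]; simp only [Matrix.mul_assoc]
      _ = ρs' * S * (A * ρ) := by rw [← h4]; simp only [Matrix.mul_assoc]
      _ = S' * A' := by rw [a1, hS']; simp only [Matrix.mul_assoc]
  obtain ⟨L, hCH⟩ := SS.core hP hQ hrl _ X'.ι Y'.ι A' B' sA sB R' S' (a + l + b) (by omega) p3 p4 p1 p2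
    rfl
  refine ⟨L + a + b, ?_⟩
  have c := (CH.trans cA (hCH : CH X' Y' (A' ^ L * R'))).trans b2
  convert c using 1
  change A ^ (L + a + b) * R = ρ * (A' ^ L * R') * ρs'
  calc A ^ (L + a + b) * R = A ^ (L + a) * (A ^ b * R) := by
        rw [pow_add _ (L + a), Matrix.mul_assoc]
    _ = A ^ L * A ^ a * (R * B ^ b) := by rw [semiconj_pow A B R h3, ← pow_add]
    _ = (A ^ L * ρ) * ρs * (R * (ρ' * ρs')) := by
        rw [← a3, b3]; simp only [Matrix.mul_assoc]
    _ = (ρ * A' ^ L) * ρs * (R * (ρ' * ρs')) := by rw [semiconj_pow A A' ρ a1]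
    _ = ρ * (A' ^ L * R') * ρs' := by rw [hR']; simp only [Matrix.mul_assoc]

end Run7.h850.SS
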