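import Pool.Agent.Run7.h850.SS.Move

/-!
# The block step for a primitive first component
-/

set_option autoImplicit false
set_option linter.unusedSectionVars false
set_option linter.unusedVariables false

namespace Run7.h850.SS

open Matrix Pool.Agent.H812R2.SSE

/-- all entries of the powers tend to infinity -/
def Big {γ : Type} [Fintype γ] [DecidableEq γ] (Θ : Matrix γ γ ℕ) : Prop :=
  ∀ K : ℕ, ∃ k0, ∀ k, k0 ≤ k → ∀ i j, K ≤ (Θ ^ k) i j

/-- every state lies on closed paths of all large lengths -/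
def Per1 {β : Type} [Fintype β] [DecidableEq β] (B : Matrix β β ℕ) : Prop :=
  ∀ b, ∃ k0, ∀ k, k0 ≤ k → (B ^ k) b b ≠ 0

theorem mne {α β δ : Type} [Fintype α] [DecidableEq α] [Fintype β] [DecidableEq β]
    {X : Matrix α β ℕ} {Y : Matrix β δ ℕ} {i : α} {b : β} {j : δ} (h1 : X i b ≠ 0)
    (h2 : Y b j ≠ 0) : (X * Y) i j ≠ 0 := by
  have h : X i b * Y b j ≤ (X * Y) i j := by
    rw [Matrix.mul_apply]
    exact Finset.single_le_sum (f := fun b => X i b * Y b j) (fun _ _ => Nat.zero_le _)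
      (Finset.mem_univ b)
  have h3 := Nat.mul_pos (Nat.pos_of_ne_zero h1) (Nat.pos_of_ne_zero h2)
  omega

theorem mex {α β δ : Type} [Fintype β]
    {X : Matrix α β ℕ} {Y : Matrix β δ ℕ} {i : α} {j : δ} (h : (X * Y) i j ≠ 0) :
    ∃ b, X i b ≠ 0 ∧ Y b j ≠ 0 := by
  rw [Matrix.mul_apply] at h
  obtain ⟨a, _, ha⟩ := Finset.exists_ne_zero_of_sum_ne_zero h
  exact ⟨a, fun h0 => ha (by rw [h0, zero_mul]), fun h0 => ha (by rw [h0, mul_zero])⟩

variable {γ β : Type} [Fintype γ] [DecidableEq γ] [Fintype β] [DecidableEq β]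

theorem powCH (X : Obj) (k : ℕ) : CH X X (X.M ^ k) := by
  induction k with
  | zero => rw [pow_zero]; exact CH.refl X
  | succ k ih =>
    rw [pow_succ]
    exact ih.trans (CH.single X.M 1 (by rw [Matrix.mul_one]) (by rw [Matrix.one_mul]))

theorem downCH (Θ : Matrix γ γ ℕ) (B : Matrix β β ℕ) (e : ℕ) : ∀ n : Matrix γ β ℕ,
    CH (XO Θ (Θ ^ e * n) B) (XO Θ n B) (fromBlocks (Θ ^ e) 0 0 1) := by
  induction e with
  | zero =>
    intro n
    rw [pow_zero, Matrix.one_mul, Matrix.fromBlocks_one]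
    exact CH.refl _
  | succ e ih =>
    intro n
    have c1 : CH (XO Θ (Θ * (Θ ^ e * n)) B) (XO Θ (Θ ^ e * n) B) (fromBlocks Θ 0 0 1) := by
      refine CH.single (X := XO Θ (Θ * (Θ ^ e * n)) B) (Y := XO Θ (Θ ^ e * n) B) _
        (fromBlocks 1 (Θ ^ e * n) 0 B) ?_ ?_
      · change fromBlocks Θ (Θ * (Θ ^ e * n)) 0 B = _
        rw [Matrix.fromBlocks_multiply]; simp
      · change fromBlocks Θ (Θ ^ e * n) 0 B = _
        rw [Matrix.fromBlocks_multiply]; simp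
    have c := c1.trans (ih n)
    rw [pow_succ', Matrix.mul_assoc]
    convert c using 1
    rw [Matrix.fromBlocks_multiply]
    simp

/-- `b` can be reached from the first block -/
def Ub (Θ : Matrix γ γ ℕ) (n : Matrix γ β ℕ) (B : Matrix β β ℕ) (b : β) : Prop :=
  ∃ c k, ((fromBlocks Θ n 0 B) ^ k) (Sum.inl c) (Sum.inr b) ≠ 0

theorem Ub.exists {Θ : Matrix γ γ ℕ} {n : Matrix γ β ℕ} {B : Matrix β β ℕ} {b : β}
    (h : Ub Θ n B b) : ∃ c b0 j, n c b0 ≠ 0 ∧ (B ^ j) b0 b ≠ 0 := by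
  obtain ⟨c, k, h⟩ := h
  rw [block_pow, Matrix.fromBlocks_apply₁₂] at h
  obtain ⟨j, _, h1⟩ := PP_ne Θ n B c b h
  obtain ⟨c1, _, h2⟩ := mex h1
  obtain ⟨b0, h3, h4⟩ := mex h2
  exact ⟨c1, b0, j, h3, h4⟩

theorem Ub.of {Θ : Matrix γ γ ℕ} {n : Matrix γ β ℕ} {B : Matrix β β ℕ} {c : γ} {b0 b : β}
    {j : ℕ} (h1 : n c b0 ≠ 0) (h2 : (B ^ j) b0 b ≠ 0) : Ub Θ n B b := by
  refine ⟨c, 1 + j, ?_⟩
  rw [pow_add, pow_one]
  refine mne (b := Sum.inr b0) h1 ?_
  rw [block_pow, Matrix.fromBlocks_apply₂₂]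
  exact h2

theorem Ub.succ {Θ : Matrix γ γ ℕ} {n : Matrix γ β ℕ} {B : Matrix β β ℕ} {b b' : β} {j : ℕ}
    (h : Ub Θ n B b) (hb : (B ^ j) b b' ≠ 0) : Ub Θ n B b' := by
  obtain ⟨c, k, h⟩ := h
  refine ⟨c, k + j, ?_⟩
  rw [pow_add]
  refine mne (b := Sum.inr b) h ?_
  rw [block_pow, Matrix.fromBlocks_apply₂₂]
  exact hb

theorem growth {Θ : Matrix γ γ ℕ} {B : Matrix β β ℕ} (hΘ : Big Θ) (hB : Per1 B)
    (n : Matrix γ β ℕ) (K : ℕ) : ∃ k0 : ℕ, ∀ b, Ub Θ n B b → ∀ j k : ℕ, k0 ≤ j → k0 ≤ k → ∀ i,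
      K ≤ (Θ ^ j * n * B ^ k) i b := by
  classical
  have h1 : ∀ b, ∃ k0 : ℕ, Ub Θ n B b → ∀ j k : ℕ, k0 ≤ j → k0 ≤ k → ∀ i,
      K ≤ (Θ ^ j * n * B ^ k) i b := by
    intro b
    by_cases hb : Ub Θ n B b
    · obtain ⟨c, b0, s, h2, h3⟩ := hb.exists
      obtain ⟨k1, hk1⟩ := hΘ K
      obtain ⟨k2, hk2⟩ := hB b
      refine ⟨k1 + k2 + s, fun _ j k hj hk i => ?_⟩
      have e1 : K ≤ (Θ ^ j * n) i b0 := by
        have := mul_entry_le (Θ ^ j) n i c b0
        have h4 := hk1 j (by omega) i c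
        have h5 : K * 1 ≤ (Θ ^ j) i c * n c b0 :=
          Nat.mul_le_mul h4 (Nat.one_le_iff_ne_zero.2 h2)
        omega
      have e2 : (B ^ k) b0 b ≠ 0 := by
        have : k = s + (k - s) := by omega
        rw [this, pow_add]
        exact mne h3 (hk2 _ (by omega))
      have := mul_entry_le (Θ ^ j * n) (B ^ k) i b0 b
      have h5 : K * 1 ≤ (Θ ^ j * n) i b0 * (B ^ k) b0 b :=
        Nat.mul_le_mul e1 (Nat.one_le_iff_ne_zero.2 e2)
      omega
    · exact ⟨0, fun h => absurd h hb⟩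
  choose f hf using h1
  refine ⟨Finset.univ.sup f, fun b hb j k hj hk i => ?_⟩
  have := Finset.le_sup (f := f) (Finset.mem_univ b)
  exact hf b hb j k (this.trans hj) (this.trans hk) i

/-- the powers tend to infinity, or the `1 × 1` matrix `[1]` -/
def Bo {γ : Type} [Fintype γ] [DecidableEq γ] (Θ : Matrix γ γ ℕ) : Prop :=
  Big Θ ∨ (Subsingleton γ ∧ Θ = 1)

/-- growth on the diagonal, or a diagonal entry one -/
def Gw {β : Type} [Fintype β] [DecidableEq β] (B : Matrix β β ℕ) : Prop :=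
  ∀ b, (∀ K : ℕ, ∃ k0, ∀ k, k0 ≤ k → K ≤ (B ^ k) b b) ∨ B b b = 1

theorem diag_one {B : Matrix β β ℕ} {b : β} (h : B b b = 1) (k : ℕ) : 1 ≤ (B ^ k) b b := by
  induction k with
  | zero => rw [pow_zero, Matrix.one_apply_eq]
  | succ k ih =>
    rw [pow_succ]
    have := mul_entry_le (B ^ k) B b b b
    rw [h, mul_one] at this
    omega

theorem Gw.per1 {B : Matrix β β ℕ} (h : Gw B) : Per1 B := by
  intro b
  rcases h b with h | h
  · obtain ⟨k0, hk⟩ := h 1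
    exact ⟨k0, fun k hkk => by have := hk k hkk; omega⟩
  · exact ⟨0, fun k _ => by have := diag_one h k; omega⟩

theorem Bo.per1 {Θ : Matrix γ γ ℕ} (h : Bo Θ) : Per1 Θ := by
  intro c
  rcases h with h | ⟨_, h⟩
  · obtain ⟨k0, hk⟩ := h 1
    exact ⟨k0, fun k hkk => by have := hk k hkk c c; omega⟩
  · refine ⟨0, fun k _ => ?_⟩
    rw [h, one_pow, Matrix.one_apply_eq]
    exact one_ne_zero

theorem mul_two_le {δ : Type} (X : Matrix δ β ℕ) (Y : Matrix β β ℕ) (i : δ) (b b' : β)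
    (hb : b ≠ b') : X i b * Y b b + X i b' * Y b' b ≤ (X * Y) i b := by
  rw [Matrix.mul_apply, ← Finset.sum_pair (f := fun a => X i a * Y a b) hb]
  exact Finset.sum_le_sum_of_subset (Finset.subset_univ _)

theorem growth2 {Θ : Matrix γ γ ℕ} {B : Matrix β β ℕ} (hΘ : Bo Θ) (hB : Gw B)
    (n : Matrix γ β ℕ) (K : ℕ) : ∃ k0 : ℕ, ∀ b, Ub Θ n B b → ∀ j k : ℕ, k0 ≤ j → k0 ≤ k → ∀ i,
      K ≤ (Θ ^ j * n * B ^ k) i b ∨ (1 ≤ (Θ ^ j * n * B ^ k) i b ∧
        (∀ b', Ub Θ n B b' → B b' b = if b' = b then 1 else 0) ∧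
        ∀ c, Θ i c = if c = i then 1 else 0) := by
  classical
  rcases hΘ with hΘ | ⟨hs, h1⟩
  · obtain ⟨k0, hk0⟩ := growth hΘ hB.per1 n K
    exact ⟨k0, fun b hb j k hj hk i => Or.inl (hk0 b hb j k hj hk i)⟩
  have e0 : ∀ j k : ℕ, Θ ^ j * n * B ^ k = n * B ^ k := by
    intro j k; rw [h1, one_pow, Matrix.one_mul]
  have hrow : ∀ i c, Θ i c = if c = i then 1 else 0 := by
    intro i c
    rw [Subsingleton.elim c i, h1, Matrix.one_apply_eq, if_pos rfl]
  have key : ∀ b, ∃ k0 : ℕ, Ub Θ n B b → ∀ k : ℕ, k0 ≤ k → ∀ i,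
      K ≤ (n * B ^ k) i b ∨ (1 ≤ (n * B ^ k) i b ∧
        (∀ b', Ub Θ n B b' → B b' b = if b' = b then 1 else 0)) := by
    intro b
    by_cases hb : Ub Θ n B b
    swap
    · exact ⟨0, fun h => absurd h hb⟩
    rcases hB b with hbig | hone
    · -- a growing state
      obtain ⟨c, b0, s, h2, h3⟩ := hb.exists
      obtain ⟨k1, hk1⟩ := hbig K
      refine ⟨k1 + s, fun _ k hk i => Or.inl ?_⟩
      have e : k = s + (k - s) := by omega
      have h4 : n * B ^ k = n * B ^ s * B ^ (k - s) := by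
        rw [Matrix.mul_assoc, ← pow_add, ← e]
      have h5 : (n * B ^ s) i b ≠ 0 := by
        rw [Subsingleton.elim i c]; exact mne h2 h3
      have h6 := mul_entry_le (n * B ^ s) (B ^ (k - s)) i b b
      have h7 := hk1 (k - s) (by omega)
      have h8 : 1 * K ≤ (n * B ^ s) i b * (B ^ (k - s)) b b :=
        Nat.mul_le_mul (Nat.one_le_iff_ne_zero.2 h5) h7
      rw [h4]; omega
    · by_cases hpr : ∃ b', b' ≠ b ∧ Ub Θ n B b' ∧ B b' b ≠ 0
      · -- growth from a predecessor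
        obtain ⟨b', hne, hU', hBb⟩ := hpr
        obtain ⟨c, b0, s, h2, h3⟩ := hU'.exists
        obtain ⟨k1, hk1⟩ := hB.per1 b'
        have h4 : ∀ k, s + k1 ≤ k → ∀ i, 1 ≤ (n * B ^ k) i b' := by
          intro k hk i
          have e : k = s + (k - s) := by omega
          rw [e, pow_add, ← Matrix.mul_assoc, Subsingleton.elim i c]
          exact Nat.one_le_iff_ne_zero.2 (mne (mne h2 h3) (hk1 _ (by omega)))
        have h5 : ∀ j : ℕ, ∀ i, j ≤ (n * B ^ (s + k1 + j)) i b := by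
          intro j
          induction j with
          | zero => intro i; exact Nat.zero_le _
          | succ j ih =>
            intro i
            have h6 := mul_two_le (n * B ^ (s + k1 + j)) B i b b' (Ne.symm hne)
            have h7 := ih i
            have h8 := h4 (s + k1 + j) (by omega) i
            have h9 : 1 * 1 ≤ (n * B ^ (s + k1 + j)) i b' * B b' b :=
              Nat.mul_le_mul h8 (Nat.one_le_iff_ne_zero.2 hBb)
            rw [hone, mul_one] at h6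
            rw [← add_assoc, pow_succ, ← Matrix.mul_assoc]
            omega
        refine ⟨s + k1 + K, fun _ k hk i => Or.inl ?_⟩
        obtain ⟨j, hj⟩ : ∃ j, k = s + k1 + j := ⟨k - (s + k1), by omega⟩
        have := h5 j i
        rw [hj]; omega
      · -- a static state
        have hst : ∀ b', Ub Θ n B b' → B b' b = if b' = b then 1 else 0 := by
          intro b' hb'
          by_cases h : b' = b
          · rw [if_pos h, h, hone]
          · rw [if_neg h]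
            by_contra hne
            exact hpr ⟨b', h, hb', hne⟩
        obtain ⟨c, b0, s, h2, h3⟩ := hb.exists
        have hbb : ∀ (s : ℕ) (b0 : β), Ub Θ n B b0 → (B ^ s) b0 b ≠ 0 → b0 = b := by
          intro s
          induction s with
          | zero =>
            intro b0 _ h
            by_contra hne
            exact h (by rw [pow_zero, Matrix.one_apply_ne hne])
          | succ s ih =>
            intro b0 hU0 h
            rw [pow_succ] at h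
            obtain ⟨b1, h4, h5⟩ := mex h
            have hU1 : Ub Θ n B b1 := hU0.succ h4
            have h6 := hst b1 hU1
            by_cases hb1 : b1 = b
            · exact ih b0 hU0 (hb1 ▸ h4)
            · rw [if_neg hb1] at h6
              exact absurd h6 h5
        have hU0 : Ub Θ n B b0 := Ub.of (j := 0) h2 (by
          rw [pow_zero, Matrix.one_apply_eq]; exact one_ne_zero)
        have hb0 := hbb s b0 hU0 h3
        refine ⟨0, fun _ k _ i => Or.inr ⟨?_, hst⟩⟩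
        have h6 := mul_entry_le n (B ^ k) i b b
        have h7 := diag_one hone k
        have h8 : n i b ≠ 0 := by
          rw [Subsingleton.elim i c, ← hb0]; exact h2
        have h9 : 1 * 1 ≤ n i b * (B ^ k) b b :=
          Nat.mul_le_mul (Nat.one_le_iff_ne_zero.2 h8) h7
        omega
  choose f hf using key
  refine ⟨Finset.univ.sup f, fun b hb j k hj hk i => ?_⟩
  have h2 := Finset.le_sup (f := f) (Finset.mem_univ b)
  rw [e0]
  rcases hf b hb k (h2.trans hk) i with h | ⟨h3, h4⟩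
  · exact Or.inl h
  · exact Or.inr ⟨h3, h4, hrow i⟩

section

variable {Θ : Matrix γ γ ℕ} {m m' : Matrix γ β ℕ} {B : Matrix β β ℕ}

theorem block_step (hΘ : Bo Θ) (hB : Gw B) (e f l : ℕ) (r : Matrix γ β ℕ)
    (s0 : Matrix γ γ ℕ) (s12 : Matrix γ β ℕ) (S2 : Matrix β β ℕ)
    (hAR : fromBlocks Θ m 0 B * fromBlocks (Θ ^ e) r 0 (B ^ f) =
      fromBlocks (Θ ^ e) r 0 (B ^ f) * fromBlocks Θ m' 0 B)
    (hSA : fromBlocks s0 s12 0 S2 * fromBlocks Θ m 0 B =
      fromBlocks Θ m' 0 B * fromBlocks s0 s12 0 S2)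
    (hRS : fromBlocks (Θ ^ e) r 0 (B ^ f) * fromBlocks s0 s12 0 S2 = (fromBlocks Θ m 0 B) ^ l)
    (hSR : fromBlocks s0 s12 0 S2 * fromBlocks (Θ ^ e) r 0 (B ^ f) =
      (fromBlocks Θ m' 0 B) ^ l) :
    ∃ T, CH (XO Θ m B) (XO Θ m' B)
      ((fromBlocks Θ m 0 B) ^ T * fromBlocks (Θ ^ e) r 0 (B ^ f)) := by
  -- block equations
  have q1 : Θ ^ e * m' + r * B = m * B ^ f + Θ * r := by
    have h := congrArg Matrix.toBlocks₁₂ hAR
    rw [Matrix.fromBlocks_multiply, Matrix.fromBlocks_multiply, Matrix.toBlocks_fromBlocks₁₂,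
      Matrix.toBlocks_fromBlocks₁₂] at h
    rw [← h, add_comm]
  have q2 : Θ ^ e * s0 = Θ ^ l := by
    have h := congrArg Matrix.toBlocks₁₁ hRS
    rw [Matrix.fromBlocks_multiply, block_pow, Matrix.toBlocks_fromBlocks₁₁,
      Matrix.toBlocks_fromBlocks₁₁] at h
    simpa using h
  have q3 : S2 * B ^ f = B ^ l := by
    have h := congrArg Matrix.toBlocks₂₂ hSR
    rw [Matrix.fromBlocks_multiply, block_pow, Matrix.toBlocks_fromBlocks₂₂,
      Matrix.toBlocks_fromBlocks₂₂] at h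
    simpa using h
  -- nonzero entries
  have z0 : ∀ c, ∃ c', s0 c' c ≠ 0 := by
    intro c
    obtain ⟨k0, hk0⟩ := hΘ.per1 c
    have h1 : (Θ ^ k0 * (Θ ^ e * s0)) c c ≠ 0 := by
      rw [q2, ← pow_add]
      exact hk0 (k0 + l) (by omega)
    obtain ⟨c1, _, h2⟩ := mex h1
    obtain ⟨c2, _, h3⟩ := mex h2
    exact ⟨c2, h3⟩
  have z1 : ∀ c, ∃ c', (Θ ^ e) c' c ≠ 0 := by
    intro c
    obtain ⟨k0, hk0⟩ := hΘ.per1 c
    have h1 : (Θ ^ k0 * Θ ^ e) c c ≠ 0 := by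
      rw [← pow_add]
      exact hk0 (k0 + e) (by omega)
    obtain ⟨c1, _, h2⟩ := mex h1
    exact ⟨c1, h2⟩
  have z2 : ∀ b, ∃ b1 j, S2 b b1 ≠ 0 ∧ (B ^ j) b1 b ≠ 0 := by
    intro b
    obtain ⟨k0, hk0⟩ := hB.per1 b
    have h1 : (S2 * B ^ (f + k0)) b b ≠ 0 := by
      rw [pow_add, ← Matrix.mul_assoc, q3, ← pow_add]
      exact hk0 _ (by omega)
    obtain ⟨b1, h2, h3⟩ := mex h1
    exact ⟨b1, _, h2, h3⟩
  have z3 : ∀ b, ∃ b1 j, (B ^ f) b b1 ≠ 0 ∧ (B ^ j) b1 b ≠ 0 := by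
    intro b
    obtain ⟨k0, hk0⟩ := hB.per1 b
    have h1 : (B ^ f * B ^ k0) b b ≠ 0 := by
      rw [← pow_add]
      exact hk0 _ (by omega)
    obtain ⟨b1, h2, h3⟩ := mex h1
    exact ⟨b1, _, h2, h3⟩
  -- the reachable sets
  have U1 : ∀ b, Ub Θ m B b → Ub Θ m' B b := by
    rintro b ⟨c, k, h⟩
    obtain ⟨c', hc'⟩ := z0 c
    obtain ⟨b1, j, h1, h2⟩ := z3 b
    have e1 : fromBlocks s0 s12 0 S2 * (fromBlocks Θ m 0 B) ^ k *
        fromBlocks (Θ ^ e) r 0 (B ^ f) = (fromBlocks Θ m' 0 B) ^ (k + l) := by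
      rw [← semiconj_pow _ _ _ hSA.symm k, Matrix.mul_assoc, hSR, ← pow_add]
    have e2 : ((fromBlocks Θ m' 0 B) ^ (k + l)) (Sum.inl c') (Sum.inr b1) ≠ 0 := by
      rw [← e1]
      refine mne (b := Sum.inr b) (mne (b := Sum.inl c) hc' h) h1
    exact Ub.succ ⟨c', k + l, e2⟩ h2
  have U2 : ∀ b, Ub Θ m' B b → Ub Θ m B b := by
    rintro b ⟨c, k, h⟩
    obtain ⟨c', hc'⟩ := z1 c
    obtain ⟨b1, j, h1, h2⟩ := z2 b
    have e1 : fromBlocks (Θ ^ e) r 0 (B ^ f) * (fromBlocks Θ m' 0 B) ^ k *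
        fromBlocks s0 s12 0 S2 = (fromBlocks Θ m 0 B) ^ (k + l) := by
      rw [← semiconj_pow _ _ _ hAR k, Matrix.mul_assoc, hRS, ← pow_add]
    have e2 : ((fromBlocks Θ m 0 B) ^ (k + l)) (Sum.inl c') (Sum.inr b1) ≠ 0 := by
      rw [← e1]
      refine mne (b := Sum.inr b) (mne (b := Sum.inl c) hc' h) h1
    exact Ub.succ ⟨c', k + l, e2⟩ h2
  have U3 : ∀ c b, r c b ≠ 0 → Ub Θ m B b := by
    intro c b h
    obtain ⟨b1, j, h1, h2⟩ := z2 b
    have e2 : ((fromBlocks Θ m 0 B) ^ l) (Sum.inl c) (Sum.inr b1) ≠ 0 := by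
      rw [← hRS]
      exact mne (b := Sum.inr b) h h1
    exact Ub.succ ⟨c, l, e2⟩ h2
  obtain ⟨ka, ha⟩ := growth2 hΘ hB m (tot B + tot Θ + 1)
  obtain ⟨kb, hb⟩ := growth2 hΘ hB m' (tot B + tot Θ + 1)
  obtain ⟨k, hk⟩ : ∃ k, k = ka + kb := ⟨_, rfl⟩
  have hp : CH (XO Θ (Θ ^ k * (m * B ^ f) * B ^ k) B) (XO Θ (Θ ^ k * (Θ ^ e * m') * B ^ k) B)
      (fromBlocks 1 (Θ ^ k * r * B ^ k) 0 1) := by
    refine path Θ B _ _ _ (Ub Θ m B) ?_ ?_ ?_ ?_
    · intro b b' h hU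
      exact hU.succ (j := 1) (by rwa [pow_one])
    · intro i b h
      obtain ⟨b', h1, h2⟩ := mex h
      obtain ⟨c, _, h3⟩ := mex h1
      exact (U3 c b' h3).succ h2
    · intro i b hU
      have t1 := ha b hU k (f + k) (by omega) (by omega) i
      rw [pow_add, ← Matrix.mul_assoc, Matrix.mul_assoc (Θ ^ k) m] at t1
      have t2 := hb b (U1 b hU) (k + e) k (by omega) (by omega) i
      rw [pow_add, Matrix.mul_assoc (Θ ^ k) (Θ ^ e)] at t2
      rcases t1 with t1 | t1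
      · rcases t2 with t2 | ⟨_, t3, t4⟩
        · left
          constructor <;> omega
        · right
          exact ⟨by omega, fun b' hb' => t3 b' (U1 b' hb'), t4⟩
      · exact Or.inr t1
    · have e1 : Θ ^ k * r * B ^ k * B = Θ ^ k * (r * B) * B ^ k := by
        simp only [Matrix.mul_assoc]
        rw [← pow_succ, ← pow_succ']
      have e2 : Θ * (Θ ^ k * r * B ^ k) = Θ ^ k * (Θ * r) * B ^ k := by
        simp only [← Matrix.mul_assoc]
        rw [← pow_succ, ← pow_succ']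
      rw [e1, e2, ← Matrix.add_mul, ← Matrix.mul_add, q1, Matrix.mul_add, Matrix.add_mul]
  have hm0 : Mv Θ B (Θ ^ k * (m * B ^ f) * B ^ k) (Θ ^ k * (Θ ^ e * m') * B ^ k)
      (Θ ^ k * r * B ^ k) 0 := by
    unfold Mv
    rw [pow_zero, Matrix.one_mul]
    exact hp
  have hm1 := Mv.scale k k q1 hm0
  obtain ⟨T, hT⟩ : ∃ T, T = 0 + k + k := ⟨_, rfl⟩
  rw [← hT] at hm1
  unfold Mv at hm1
  refine ⟨T, ?_⟩
  have c1 := (powCH ⟨β, B⟩ f).lift Θ m
  have c3 := downCH Θ B e m'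
  have c := (c1.trans hm1).trans c3
  convert c using 1
  have hs : fromBlocks Θ m 0 B * fromBlocks (1 : Matrix γ γ ℕ) 0 0 (B ^ f) =
      fromBlocks (1 : Matrix γ γ ℕ) 0 0 (B ^ f) * fromBlocks Θ (m * B ^ f) 0 B := by
    rw [Matrix.fromBlocks_multiply, Matrix.fromBlocks_multiply]
    simp only [Matrix.one_mul, Matrix.mul_one, Matrix.mul_zero, Matrix.zero_mul, add_zero,
      zero_add]
    rw [← pow_succ, ← pow_succ']
  symm
  calc (fromBlocks (1 : Matrix γ γ ℕ) 0 0 (B ^ f)) * ((fromBlocks Θ (m * B ^ f) 0 B) ^ T *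
        fromBlocks 1 r 0 1) * fromBlocks (Θ ^ e) 0 0 1
      = ((fromBlocks (1 : Matrix γ γ ℕ) 0 0 (B ^ f)) * (fromBlocks Θ (m * B ^ f) 0 B) ^ T) *
        (fromBlocks 1 r 0 1 * fromBlocks (Θ ^ e) 0 0 1) := by simp only [Matrix.mul_assoc]
    _ = (fromBlocks Θ m 0 B) ^ T * (fromBlocks (1 : Matrix γ γ ℕ) 0 0 (B ^ f) *
        (fromBlocks 1 r 0 1 * fromBlocks (Θ ^ e) 0 0 1)) := by
        rw [semi _ _ _ hs, Matrix.mul_assoc]
    _ = _ := by
        congr 1
        simp only [Matrix.fromBlocks_multiply]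
        simp

end

end Run7.h850.SS
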