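import Pool.Agent.Run7.h850.SS.Reduce

/-!
# Full shifts and hyperbolic 2 x 2 matrices of determinant ±1
-/

set_option autoImplicit false
set_option linter.unusedSectionVars false
set_option linter.unusedVariables false

namespace Run7.h850.SS

open Matrix Pool.Agent.H812R2.SSE

/-! ### growth -/

theorem big_of_two {γ : Type} [Fintype γ] [DecidableEq γ] (Θ : Matrix γ γ ℕ) (N : ℕ)
    (h : ∀ i j, 2 ≤ (Θ ^ N) i j) : Big Θ := by
  intro K
  have h1 : ∀ m : ℕ, ∀ i j, 2 ^ m ≤ (Θ ^ (N * (m + 1))) i j := by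
    intro m
    induction m with
    | zero =>
      intro i j
      rw [Nat.zero_add, Nat.mul_one]
      have := h i j
      simp only [pow_zero]; omega
    | succ m ih =>
      intro i j
      have e : Θ ^ (N * (m + 1 + 1)) = Θ ^ (N * (m + 1)) * Θ ^ N := by
        rw [← pow_add]; congr 1
      rw [e]
      calc 2 ^ (m + 1) = 2 ^ m * 2 := pow_succ _ _
        _ ≤ (Θ ^ (N * (m + 1))) i i * (Θ ^ N) i j := Nat.mul_le_mul (ih i i) (h i j)
        _ ≤ _ := by
          rw [Matrix.mul_apply]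
          exact Finset.single_le_sum (f := fun b => (Θ ^ (N * (m + 1))) i b * (Θ ^ N) b j)
            (fun _ _ => Nat.zero_le _) (Finset.mem_univ i)
  have hN : ∀ i : γ, 1 ≤ N := by
    intro i
    by_contra hN
    have hN0 : N = 0 := by omega
    have := h i i
    rw [hN0, pow_zero, Matrix.one_apply_eq] at this
    omega
  refine ⟨N * (K + 1), fun k hk i j => ?_⟩
  obtain ⟨r, rfl⟩ := Nat.exists_eq_add_of_le hk
  have h2 : (Θ ^ (r + N * (r + 1) - r)) i i ≠ 0 ∨ True := Or.inr trivial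
  -- a nonzero entry in the column `j` of `Θ ^ r`
  have h3 : (Θ ^ (N * (r + 1))) i j ≠ 0 := by
    have := h1 r i j
    have h4 : 0 < 2 ^ r := by positivity
    omega
  obtain ⟨q, hq⟩ : ∃ q, N * (r + 1) = q + r := by
    refine ⟨N * (r + 1) - r, ?_⟩
    have : r ≤ N * (r + 1) := by
      have := hN i
      nlinarith
    omega
  rw [hq, pow_add] at h3
  obtain ⟨a, _, ha⟩ := mex h3
  rw [pow_add]
  calc K ≤ 2 ^ K := Nat.lt_two_pow_self.le
    _ ≤ (Θ ^ (N * (K + 1))) i a := h1 K i a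
    _ ≤ (Θ ^ (N * (K + 1))) i a * (Θ ^ r) a j :=
        Nat.le_mul_of_pos_right _ (Nat.pos_of_ne_zero ha)
    _ ≤ _ := by
      rw [Matrix.mul_apply]
      exact Finset.single_le_sum (f := fun b => (Θ ^ (N * (K + 1))) i b * (Θ ^ r) b j)
        (fun _ _ => Nat.zero_le _) (Finset.mem_univ a)

theorem two_of_big {γ : Type} [Fintype γ] [DecidableEq γ] {Θ : Matrix γ γ ℕ} (h : Big Θ) :
    ∃ N, ∀ i j, 2 ≤ (Θ ^ N) i j := by
  obtain ⟨k0, hk⟩ := h 2
  exact ⟨k0, hk k0 le_rfl⟩

/-! ### from one chain to all shift equivalences -/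

theorem rl_of_self {X Y : Obj} (h : Rl X X) (h' : SE' X.M Y.M → ∃ ρ, CH X Y ρ) : Rl X Y := by
  intro l hl R S h1 h2 h3 h4
  obtain ⟨ρ, c⟩ := h' ⟨l, hl, R, S, h1, h2, h3, h4⟩
  obtain ⟨a1, ρs, a, a2, a3, a4, a5⟩ := c.rev'
  obtain ⟨t, ct⟩ := h (l + a) (by omega) (R * ρs) (ρ * S)
    (by
      calc R * ρs * (ρ * S) = R * (ρs * ρ) * S := by simp only [Matrix.mul_assoc]
        _ = R * Y.M ^ a * S := by rw [a4]
        _ = X.M ^ a * R * S := by rw [semiconj_pow _ _ _ h3]
        _ = X.M ^ (l + a) := by rw [Matrix.mul_assoc, h1, ← pow_add, add_comm])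
    (by
      calc ρ * S * (R * ρs) = ρ * (S * R) * ρs := by simp only [Matrix.mul_assoc]
        _ = ρ * Y.M ^ l * ρs := by rw [h2]
        _ = X.M ^ l * ρ * ρs := by rw [semiconj_pow _ _ _ a1]
        _ = X.M ^ (l + a) := by rw [Matrix.mul_assoc, a3, ← pow_add])
    (by
      calc X.M * (R * ρs) = (X.M * R) * ρs := by rw [Matrix.mul_assoc]
        _ = R * (Y.M * ρs) := by rw [h3, Matrix.mul_assoc]
        _ = R * ρs * X.M := by rw [a5, Matrix.mul_assoc])
    (by
      calc ρ * S * X.M = ρ * (S * X.M) := by rw [Matrix.mul_assoc]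
        _ = (ρ * Y.M) * S := by rw [h4, Matrix.mul_assoc]
        _ = X.M * (ρ * S) := by rw [← a1, Matrix.mul_assoc])
  refine ⟨t + a, ?_⟩
  have c2 := ct.trans c
  convert c2 using 1
  calc X.M ^ (t + a) * R = X.M ^ t * (X.M ^ a * R) := by rw [pow_add, Matrix.mul_assoc]
    _ = X.M ^ t * (R * Y.M ^ a) := by rw [semiconj_pow _ _ _ h3]
    _ = X.M ^ t * (R * (ρs * ρ)) := by rw [a4]
    _ = X.M ^ t * (R * ρs) * ρ := by simp only [Matrix.mul_assoc]

theorem rl_iso {α α' β β' : Type} [Fintype α] [DecidableEq α] [Fintype α'] [DecidableEq α']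
    [Fintype β] [DecidableEq β] [Fintype β'] [DecidableEq β']
    (e : α ≃ α') (f : β ≃ β') (A : Matrix α α ℕ) (B : Matrix β β ℕ)
    (h : Rl ⟨α', A.submatrix e.symm e.symm⟩ ⟨β', B.submatrix f.symm f.symm⟩) :
    Rl ⟨α, A⟩ ⟨β, B⟩ := by
  intro l hl R S h1 h2 h3 h4
  change R * S = A ^ l at h1
  change S * R = B ^ l at h2
  change A * R = R * B at h3
  change S * A = B * S at h4
  obtain ⟨t, c⟩ := h l hl (R.submatrix e.symm f.symm) (S.submatrix f.symm e.symm)
    (by
      change _ = (A.submatrix e.symm e.symm) ^ l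
      rw [Matrix.submatrix_mul_equiv, h1, submatrix_pow])
    (by
      change _ = (B.submatrix f.symm f.symm) ^ l
      rw [Matrix.submatrix_mul_equiv, h2, submatrix_pow])
    (by
      change A.submatrix e.symm e.symm * _ = _ * B.submatrix f.symm f.symm
      rw [Matrix.submatrix_mul_equiv, Matrix.submatrix_mul_equiv, h3])
    (by
      change _ * A.submatrix e.symm e.symm = B.submatrix f.symm f.symm * _
      rw [Matrix.submatrix_mul_equiv, Matrix.submatrix_mul_equiv, h4])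
  refine ⟨t, ?_⟩
  change CH ⟨α, A⟩ ⟨β, B⟩ (A ^ t * R)
  refine CH.reindex e f A B _ ?_
  rw [← Matrix.submatrix_mul_equiv (A ^ t) R e.symm e.symm f.symm, submatrix_pow]
  exact c

/-! ### 2 x 2 matrices of determinant ±1 -/

/-- 2 x 2 matrices over the nonnegative integers -/
abbrev M2 := Matrix (Fin 2) (Fin 2) ℕ

/-- the determinant -/
def dt (A : M2) : ℤ := (A.map (Nat.castRingHom ℤ)).det

theorem dt_mul (A B : M2) : dt (A * B) = dt A * dt B := by
  unfold dt
  rw [Matrix.map_mul, Matrix.det_mul]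

theorem dt_pow (A : M2) (k : ℕ) : dt (A ^ k) = dt A ^ k := by
  induction k with
  | zero => simp [dt]
  | succ k ih => rw [pow_succ, dt_mul, ih, pow_succ]

theorem dt_eq (A : M2) : dt A = (A 0 0 : ℤ) * A 1 1 - (A 0 1 : ℤ) * A 1 0 := by
  unfold dt
  rw [Matrix.det_fin_two]
  rfl

/-- hyperbolic of determinant ±1 -/
def Hyp (A : M2) : Prop :=
  (dt A = 1 ∧ 3 ≤ A 0 0 + A 1 1) ∨ (dt A = -1 ∧ 1 ≤ A 0 0 + A 1 1)

theorem Hyp.unit {A : M2} (h : Hyp A) : dt A = 1 ∨ dt A = -1 := h.imp And.left And.left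

def Tm : M2 := !![1, 1; 0, 1]
def Lm : M2 := !![1, 0; 1, 1]
def Pm : M2 := !![0, 1; 1, 0]

theorem Tm0 (X : M2) (j : Fin 2) : (Tm * X) 0 j = X 0 j + X 1 j := by
  simp [Matrix.mul_apply, Tm, Fin.sum_univ_two]

theorem Tm1 (X : M2) (j : Fin 2) : (Tm * X) 1 j = X 1 j := by
  simp [Matrix.mul_apply, Tm, Fin.sum_univ_two]

theorem Lm0 (X : M2) (j : Fin 2) : (Lm * X) 0 j = X 0 j := by
  simp [Matrix.mul_apply, Lm, Fin.sum_univ_two]

theorem Lm1 (X : M2) (j : Fin 2) : (Lm * X) 1 j = X 0 j + X 1 j := by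
  simp [Matrix.mul_apply, Lm, Fin.sum_univ_two]

theorem Pm_sq : Pm * Pm = 1 := by
  ext i j
  fin_cases i <;> fin_cases j <;> simp [Pm, Matrix.mul_apply, Fin.sum_univ_two]

theorem Tm_cancel {X Y : M2} (h : Tm * X = Tm * Y) : X = Y := by
  have h1 : ∀ j, X 1 j = Y 1 j := fun j => by
    have := congrFun (congrFun h 1) j
    rwa [Tm1, Tm1] at this
  have h0 : ∀ j, X 0 j = Y 0 j := fun j => by
    have := congrFun (congrFun h 0) j
    rw [Tm0, Tm0, h1] at this
    omega
  ext i j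
  fin_cases i
  · exact h0 j
  · exact h1 j

theorem Lm_cancel {X Y : M2} (h : Lm * X = Lm * Y) : X = Y := by
  have h1 : ∀ j, X 0 j = Y 0 j := fun j => by
    have := congrFun (congrFun h 0) j
    rwa [Lm0, Lm0] at this
  have h0 : ∀ j, X 1 j = Y 1 j := fun j => by
    have := congrFun (congrFun h 1) j
    rw [Lm1, Lm1, h1] at this
    omega
  ext i j
  fin_cases i
  · exact h1 j
  · exact h0 j

theorem Tm_fac {M : M2} (h : ∀ j, M 1 j ≤ M 0 j) : ∃ M', M = Tm * M' := by
  refine ⟨fun i j => if i = 0 then M 0 j - M 1 j else M 1 j, ?_⟩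
  ext i j
  fin_cases i
  · change M 0 j = (Tm * _) 0 j
    rw [Tm0]
    have := h j
    simp
    omega
  · change M 1 j = (Tm * _) 1 j
    rw [Tm1]
    simp

theorem Lm_fac {M : M2} (h : ∀ j, M 0 j ≤ M 1 j) : ∃ M', M = Lm * M' := by
  refine ⟨fun i j => if i = 0 then M 0 j else M 1 j - M 0 j, ?_⟩
  ext i j
  fin_cases i
  · change M 0 j = (Lm * _) 0 j
    rw [Lm0]
    simp
  · change M 1 j = (Lm * _) 1 j
    rw [Lm1]
    have := h j
    simp
    omega

/-- rows of a matrix of determinant ±1 -/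
theorem rows {M : M2} (h : dt M = 1 ∨ dt M = -1) :
    (∀ j, M 1 j ≤ M 0 j) ∨ (∀ j, M 0 j ≤ M 1 j) ∨ M = 1 ∨ M = Pm := by
  rw [dt_eq] at h
  obtain ⟨a, ha⟩ : ∃ a, a = M 0 0 := ⟨_, rfl⟩
  obtain ⟨b, hb⟩ : ∃ b, b = M 0 1 := ⟨_, rfl⟩
  obtain ⟨c, hc⟩ : ∃ c, c = M 1 0 := ⟨_, rfl⟩
  obtain ⟨d, hd⟩ : ∃ d, d = M 1 1 := ⟨_, rfl⟩
  rw [← ha, ← hb, ← hc, ← hd] at h
  have hN : a * d = b * c + 1 ∨ a * d + 1 = b * c := by
    rcases h with h | h
    · left
      have : ((a * d : ℕ) : ℤ) = ((b * c + 1 : ℕ) : ℤ) := by push_cast; linarith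
      exact_mod_cast this
    · right
      have : ((a * d + 1 : ℕ) : ℤ) = ((b * c : ℕ) : ℤ) := by push_cast; linarith
      exact_mod_cast this
  by_cases h1 : c ≤ a
  · by_cases h2 : d ≤ b
    · left
      intro j
      fin_cases j
      · change M 1 0 ≤ M 0 0; rw [← hc, ← ha]; exact h1
      · change M 1 1 ≤ M 0 1; rw [← hd, ← hb]; exact h2
    · by_cases h3 : a ≤ c
      · right; left
        intro j
        fin_cases j
        · change M 0 0 ≤ M 1 0; rw [← hc, ← ha]; exact h3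
        · change M 0 1 ≤ M 1 1; rw [← hd, ← hb]; omega
      · right; right; left
        have e1 : c + 1 ≤ a := by omega
        have e2 : b + 1 ≤ d := by omega
        have e3 := Nat.mul_le_mul e1 e2
        have e4 : (c + 1) * (b + 1) = b * c + b + c + 1 := by ring
        have hb0 : b = 0 := by rcases hN with hN | hN <;> omega
        have hc0 : c = 0 := by rcases hN with hN | hN <;> omega
        have had : a * d = 1 := by
          rcases hN with hN | hN
          · rw [hN, hb0]; simp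
          · rw [hb0] at hN; simp at hN
        have ha1 : a = 1 := Nat.eq_one_of_mul_eq_one_right had
        have hd1 : d = 1 := Nat.eq_one_of_mul_eq_one_left had
        ext i j
        fin_cases i <;> fin_cases j
        · change M 0 0 = 1; omega
        · change M 0 1 = 0; omega
        · change M 1 0 = 0; omega
        · change M 1 1 = 1; omega
  · by_cases h2 : b ≤ d
    · right; left
      intro j
      fin_cases j
      · change M 0 0 ≤ M 1 0; rw [← hc, ← ha]; omega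
      · change M 0 1 ≤ M 1 1; rw [← hd, ← hb]; exact h2
    · right; right; right
      have e1 : a + 1 ≤ c := by omega
      have e2 : d + 1 ≤ b := by omega
      have e3 := Nat.mul_le_mul e1 e2
      have e4 : (a + 1) * (d + 1) = a * d + a + d + 1 := by ring
      have e5 : c * b = b * c := Nat.mul_comm _ _
      have ha0 : a = 0 := by rcases hN with hN | hN <;> omega
      have hd0 : d = 0 := by rcases hN with hN | hN <;> omega
      have hbc : b * c = 1 := by
        rcases hN with hN | hN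
        · rw [ha0] at hN; simp at hN
        · rw [← hN, ha0]; simp
      have hb1 : b = 1 := Nat.eq_one_of_mul_eq_one_right hbc
      have hc1 : c = 1 := Nat.eq_one_of_mul_eq_one_left hbc
      ext i j
      fin_cases i <;> fin_cases j
      · change M 0 0 = 0; omega
      · change M 0 1 = 1; omega
      · change M 1 0 = 1; omega
      · change M 1 1 = 0; omega

theorem Hyp.rows {A : M2} (h : Hyp A) : (∀ j, A 1 j ≤ A 0 j) ∨ (∀ j, A 0 j ≤ A 1 j) := by
  rcases SS.rows h.unit with h1 | h1 | h1 | h1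
  · exact Or.inl h1
  · exact Or.inr h1
  · exfalso
    rw [h1] at h
    rcases h with ⟨h2, h3⟩ | ⟨h2, h3⟩
    · simp at h3
    · rw [dt_eq] at h2; simp at h2
  · exfalso
    rw [h1] at h
    rcases h with ⟨h2, h3⟩ | ⟨h2, h3⟩
    · simp [Pm] at h3
    · simp [Pm] at h3

theorem Hyp.rot {X Y : M2} (h : Hyp (X * Y)) : Hyp (Y * X) := by
  have e : (Y * X) 0 0 + (Y * X) 1 1 = (X * Y) 0 0 + (X * Y) 1 1 := by
    simp only [Matrix.mul_apply, Fin.sum_univ_two]; ring
  unfold Hyp at h ⊢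
  rw [e, dt_mul, mul_comm, ← dt_mul]
  exact h

def sm (M : M2) : ℕ := M 0 0 + M 0 1 + (M 1 0 + M 1 1)

theorem row_pow_le {A : M2} (h : ∀ j, A 0 j ≤ A 1 j) {l : ℕ} (hl : 1 ≤ l) (j : Fin 2) :
    (A ^ l) 0 j ≤ (A ^ l) 1 j := by
  obtain ⟨k, rfl⟩ : ∃ k, l = k + 1 := ⟨l - 1, by omega⟩
  rw [pow_succ', Matrix.mul_apply, Matrix.mul_apply]
  exact Finset.sum_le_sum (fun a _ => Nat.mul_le_mul_right _ (h a))

theorem row_pow_ge {A : M2} (h : ∀ j, A 1 j ≤ A 0 j) {l : ℕ} (hl : 1 ≤ l) (j : Fin 2) :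
    (A ^ l) 1 j ≤ (A ^ l) 0 j := by
  obtain ⟨k, rfl⟩ : ∃ k, l = k + 1 := ⟨l - 1, by omega⟩
  rw [pow_succ', Matrix.mul_apply, Matrix.mul_apply]
  exact Finset.sum_le_sum (fun a _ => Nat.mul_le_mul_right _ (h a))

theorem dt_zero {M : M2} (h : ∀ j, M 0 j = M 1 j) : dt M = 0 := by
  rw [dt_eq, h 0, h 1]; ring

theorem dt_pow_ne {A : M2} (h : Hyp A) (l : ℕ) : dt (A ^ l) ≠ 0 := by
  rw [dt_pow]
  apply pow_ne_zero
  rcases h.unit with h | h <;> rw [h] <;> decide

theorem step_data {A B R S G A' R' : M2} {l : ℕ} (hG : ∀ {X Y : M2}, G * X = G * Y → X = Y)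
    (hA : A = G * A') (hR : R = G * R') (h1 : A * R = R * B) (h2 : S * A = B * S)
    (h3 : R * S = A ^ l) (h4 : S * R = B ^ l) :
    A' * G * R' = R' * B ∧ S * G * (A' * G) = B * (S * G) ∧ R' * (S * G) = (A' * G) ^ l ∧
      S * G * R' = B ^ l := by
  refine ⟨?_, ?_, ?_, ?_⟩
  · apply hG
    calc G * (A' * G * R') = (G * A') * (G * R') := by simp only [Matrix.mul_assoc]
      _ = (G * R') * B := by rw [← hA, ← hR, h1]
      _ = G * (R' * B) := by rw [Matrix.mul_assoc]
  · calc S * G * (A' * G) = S * (G * A') * G := by simp only [Matrix.mul_assoc]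
      _ = B * (S * G) := by rw [← hA, h2, Matrix.mul_assoc]
  · have key : ∀ k : ℕ, G * (A' * G) ^ k = A ^ k * G := by
      intro k
      induction k with
      | zero => simp
      | succ k ih =>
        rw [pow_succ', pow_succ']
        calc G * (A' * G * (A' * G) ^ k) = (G * A') * (G * (A' * G) ^ k) := by
              simp only [Matrix.mul_assoc]
          _ = A * (A ^ k * G) := by rw [ih, ← hA]
          _ = A * A ^ k * G := by rw [Matrix.mul_assoc]
    apply hG
    rw [key, ← h3, hR]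
    simp only [Matrix.mul_assoc]
  · rw [Matrix.mul_assoc, ← hR, h4]

theorem uni : ∀ (N : ℕ) (A B R S : M2) (l : ℕ), sm R ≤ N → 1 ≤ l → Hyp A →
    R * S = A ^ l → S * R = B ^ l → A * R = R * B → S * A = B * S →
    CH ⟨Fin 2, A⟩ ⟨Fin 2, B⟩ R := by
  intro N
  induction N with
  | zero =>
    intro A B R S l hN hl hA h1 h2 h3 h4
    exfalso
    unfold sm at hN
    apply dt_pow_ne hA l
    rw [← h1, dt_mul, dt_eq R]
    have e1 : R 0 0 = 0 := by omega
    have e2 : R 0 1 = 0 := by omega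
    rw [e1, e2]; simp
  | succ N ih =>
    intro A B R S l hN hl hA h1 h2 h3 h4
    have hdet : dt R * dt S = dt (A ^ l) := by rw [← h1, dt_mul]
    have hu : IsUnit (dt (A ^ l)) := by
      rw [dt_pow]
      apply IsUnit.pow
      rcases hA.unit with h | h <;> rw [h] <;> simp
    have hRu : dt R = 1 ∨ dt R = -1 := by
      rw [← hdet] at hu
      exact Int.isUnit_iff.1 (isUnit_of_mul_isUnit_left hu)
    rcases rows hRu with hr | hr | hr | hr
    · have hAr : ∀ j, A 1 j ≤ A 0 j := by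
        rcases hA.rows with h | h
        · exact h
        · exfalso
          apply dt_pow_ne hA l
          apply dt_zero
          intro j
          refine le_antisymm (row_pow_le h hl j) ?_
          rw [← h1, Matrix.mul_apply, Matrix.mul_apply]
          exact Finset.sum_le_sum (fun a _ => Nat.mul_le_mul_right _ (hr a))
      obtain ⟨A', hA'⟩ := Tm_fac hAr
      obtain ⟨R', hR'⟩ := Tm_fac hr
      obtain ⟨k1, k2, k3, k4⟩ := step_data (fun h => Tm_cancel h) hA' hR' h3 h4 h1 h2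
      have hsm : sm R' ≤ N := by
        have hrow : R' 1 0 + R' 1 1 ≠ 0 := by
          intro h0
          have e1 : R' 1 0 = 0 := by omega
          have e2 : R' 1 1 = 0 := by omega
          have : dt R = 0 := by
            rw [hR', dt_mul, dt_eq R', e1, e2]; simp
          rw [this] at hRu
          rcases hRu with h | h <;> exact absurd h (by decide)
        have e : sm R = sm R' + (R' 1 0 + R' 1 1) := by
          unfold sm
          rw [hR', Tm0, Tm0, Tm1, Tm1]; ring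
        omega
      have c := ih (A' * Tm) B R' (S * Tm) l hsm hl (Hyp.rot (hA' ▸ hA)) k3 k4 k1 k2
      have c0 : CH ⟨Fin 2, A⟩ ⟨Fin 2, A' * Tm⟩ Tm :=
        CH.single (X := ⟨Fin 2, A⟩) (Y := ⟨Fin 2, A' * Tm⟩) Tm A' hA' rfl
      rw [hR']
      exact c0.trans c
    · have hAr : ∀ j, A 0 j ≤ A 1 j := by
        rcases hA.rows with h | h
        · exfalso
          apply dt_pow_ne hA l
          apply dt_zero
          intro j
          refine le_antisymm ?_ (row_pow_ge h hl j)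
          rw [← h1, Matrix.mul_apply, Matrix.mul_apply]
          exact Finset.sum_le_sum (fun a _ => Nat.mul_le_mul_right _ (hr a))
        · exact h
      obtain ⟨A', hA'⟩ := Lm_fac hAr
      obtain ⟨R', hR'⟩ := Lm_fac hr
      obtain ⟨k1, k2, k3, k4⟩ := step_data (fun h => Lm_cancel h) hA' hR' h3 h4 h1 h2
      have hsm : sm R' ≤ N := by
        have hrow : R' 0 0 + R' 0 1 ≠ 0 := by
          intro h0
          have e1 : R' 0 0 = 0 := by omega
          have e2 : R' 0 1 = 0 := by omega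
          have : dt R = 0 := by
            rw [hR', dt_mul, dt_eq R', e1, e2]; simp
          rw [this] at hRu
          rcases hRu with h | h <;> exact absurd h (by decide)
        have e : sm R = sm R' + (R' 0 0 + R' 0 1) := by
          unfold sm
          rw [hR', Lm0, Lm0, Lm1, Lm1]; ring
        omega
      have c := ih (A' * Lm) B R' (S * Lm) l hsm hl (Hyp.rot (hA' ▸ hA)) k3 k4 k1 k2
      have c0 : CH ⟨Fin 2, A⟩ ⟨Fin 2, A' * Lm⟩ Lm :=
        CH.single (X := ⟨Fin 2, A⟩) (Y := ⟨Fin 2, A' * Lm⟩) Lm A' hA' rfl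
      rw [hR']
      exact c0.trans c
    · rw [hr] at h3 ⊢
      rw [Matrix.mul_one, Matrix.one_mul] at h3
      rw [← h3]
      exact CH.refl _
    · rw [hr] at h3 ⊢
      refine CH.single (X := ⟨Fin 2, A⟩) (Y := ⟨Fin 2, B⟩) Pm (Pm * A) ?_ ?_
      · change A = Pm * (Pm * A)
        rw [← Matrix.mul_assoc, Pm_sq, Matrix.one_mul]
      · change B = Pm * A * Pm
        rw [Matrix.mul_assoc, h3, ← Matrix.mul_assoc, Pm_sq, Matrix.one_mul]

/-! ### the family -/

/-- the `1 × 1` matrix `[m]` -/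
def fl (m : ℕ) : Matrix (Fin 1) (Fin 1) ℕ := fun _ _ => m

theorem fl_mul (a b : ℕ) : fl a * fl b = fl (a * b) := by
  ext i j
  rw [Matrix.mul_apply, Fin.sum_univ_one]
  rfl

/-- the `1 × 1` matrices `[m]` with `m ≥ 1` -/
def P1 (X : Obj) : Prop := ∃ (e : X.ι ≃ Fin 1) (m : ℕ), 1 ≤ m ∧
  X.M.submatrix e.symm e.symm = fl m

/-- the hyperbolic `2 × 2` matrices of determinant `±1` -/
def P2 (X : Obj) : Prop := ∃ e : X.ι ≃ Fin 2, Hyp (X.M.submatrix e.symm e.symm)

theorem P1.iso {X : Obj} {α : Type} [Fintype α] [DecidableEq α] (e : X.ι ≃ α) (h : P1 X) :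
    P1 ⟨α, X.M.submatrix e.symm e.symm⟩ := by
  obtain ⟨f, m, hm, h⟩ := h
  refine ⟨e.symm.trans f, m, hm, ?_⟩
  rw [← h]
  ext a b
  simp

theorem P2.iso {X : Obj} {α : Type} [Fintype α] [DecidableEq α] (e : X.ι ≃ α) (h : P2 X) :
    P2 ⟨α, X.M.submatrix e.symm e.symm⟩ := by
  obtain ⟨f, h⟩ := h
  refine ⟨e.symm.trans f, ?_⟩
  have e1 : (X.M.submatrix e.symm e.symm).submatrix (e.symm.trans f).symm (e.symm.trans f).symm =
      X.M.submatrix f.symm f.symm := by
    ext a b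
    simp
  change Hyp ((X.M.submatrix e.symm e.symm).submatrix (e.symm.trans f).symm
    (e.symm.trans f).symm)
  rw [e1]
  exact h

theorem big_sub {α β : Type} [Fintype α] [DecidableEq α] [Fintype β] [DecidableEq β]
    (e : α ≃ β) (A : Matrix α α ℕ) (h : Big (A.submatrix e.symm e.symm)) : Big A := by
  intro K
  obtain ⟨k0, hk⟩ := h K
  refine ⟨k0, fun k hkk i j => ?_⟩
  have h1 := hk k hkk (e i) (e j)
  rw [← submatrix_pow, Matrix.submatrix_apply, Equiv.symm_apply_apply,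
    Equiv.symm_apply_apply] at h1
  exact h1

theorem full_pow (m k : ℕ) : fl m ^ k = fl (m ^ k) := by
  induction k with
  | zero =>
    rw [pow_zero, pow_zero]
    ext i j
    rw [Subsingleton.elim i j, Matrix.one_apply_eq]
    rfl
  | succ k ih => rw [pow_succ, ih, fl_mul, pow_succ]

theorem P1.bo {X : Obj} (h : P1 X) : Bo X.M := by
  obtain ⟨e, m, hm, h⟩ := h
  rcases hm.eq_or_lt with h1 | h2
  · right
    have hs : Subsingleton X.ι := e.subsingleton
    refine ⟨hs, ?_⟩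
    ext i j
    have h3 := congrFun (congrFun h (e i)) (e j)
    rw [Matrix.submatrix_apply, Equiv.symm_apply_apply, Equiv.symm_apply_apply] at h3
    rw [h3, Subsingleton.elim i j, Matrix.one_apply_eq]
    exact h1.symm
  · left
    apply big_sub e
    rw [h]
    refine big_of_two _ 1 (fun i j => ?_)
    rw [pow_one]; exact h2

theorem Hyp.big {A : M2} (h : Hyp A) : Big A := by
  have hN : A 0 0 * A 1 1 = A 0 1 * A 1 0 + 1 ∨ A 0 0 * A 1 1 + 1 = A 0 1 * A 1 0 := by
    rcases h with ⟨h, _⟩ | ⟨h, _⟩ <;> rw [dt_eq] at h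
    · left
      have : ((A 0 0 * A 1 1 : ℕ) : ℤ) = ((A 0 1 * A 1 0 + 1 : ℕ) : ℤ) := by
        push_cast; linarith
      exact_mod_cast this
    · right
      have : ((A 0 0 * A 1 1 + 1 : ℕ) : ℤ) = ((A 0 1 * A 1 0 : ℕ) : ℤ) := by
        push_cast; linarith
      exact_mod_cast this
  have htr : 1 ≤ A 0 0 + A 1 1 := by
    rcases h with ⟨_, h⟩ | ⟨_, h⟩ <;> omega
  have hbc : 0 < A 0 1 * A 1 0 := by
    rcases hN with hN | hN
    · rcases h with ⟨_, h3⟩ | ⟨h2, _⟩
      · by_contra hbc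
        have h0 : A 0 1 * A 1 0 = 0 := by omega
        rw [h0] at hN
        have ha1 := Nat.eq_one_of_mul_eq_one_right hN
        have hd1 := Nat.eq_one_of_mul_eq_one_left hN
        omega
      · exfalso
        rw [dt_eq] at h2
        have : ((A 0 0 * A 1 1 : ℕ) : ℤ) = ((A 0 1 * A 1 0 + 1 : ℕ) : ℤ) := by rw [hN]
        push_cast at this
        linarith
    · omega
  have hb : 1 ≤ A 0 1 := by
    by_contra h0
    have : A 0 1 = 0 := by omega
    rw [this] at hbc; simp at hbc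
  have hc : 1 ≤ A 1 0 := by
    by_contra h0
    have : A 1 0 = 0 := by omega
    rw [this] at hbc; simp at hbc
  -- the square has all entries positive
  have h2 : ∀ i j, 1 ≤ (A ^ 2) i j := by
    intro i j
    rw [pow_two, Matrix.mul_apply, Fin.sum_univ_two]
    fin_cases i <;> fin_cases j
    · change 1 ≤ A 0 0 * A 0 0 + A 0 1 * A 1 0; omega
    · change 1 ≤ A 0 0 * A 0 1 + A 0 1 * A 1 1; nlinarith
    · change 1 ≤ A 1 0 * A 0 0 + A 1 1 * A 1 0; nlinarith
    · change 1 ≤ A 1 0 * A 0 1 + A 1 1 * A 1 1; nlinarith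
  refine big_of_two _ 4 (fun i j => ?_)
  have e : A ^ 4 = A ^ 2 * A ^ 2 := by rw [← pow_add]
  rw [e, Matrix.mul_apply, Fin.sum_univ_two]
  have a1 := Nat.mul_le_mul (h2 i 0) (h2 0 j)
  have a2 := Nat.mul_le_mul (h2 i 1) (h2 1 j)
  omega

theorem P2.big {X : Obj} (h : P2 X) : Big X.M := by
  obtain ⟨e, h⟩ := h
  exact big_sub e _ h.big

theorem chain1 (m : ℕ) (l : ℕ) : ∀ (N r : ℕ), r ≤ N → r ≠ 0 → r ∣ m ^ l →
    CH ⟨Fin 1, fl m⟩ ⟨Fin 1, fl m⟩ (fl r) := by
  intro N
  induction N with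
  | zero => intro r h h0; omega
  | succ N ih =>
    intro r hr hr0 hd
    by_cases h1 : r = 1
    · have e : fl r = 1 := by
        ext i j
        rw [h1, Subsingleton.elim i j, Matrix.one_apply_eq]
        rfl
      rw [e]
      exact CH.refl _
    · have hp := Nat.minFac_prime h1
      obtain ⟨p, hpp⟩ : ∃ p, p = r.minFac := ⟨_, rfl⟩
      rw [← hpp] at hp
      obtain ⟨r', hr'⟩ : p ∣ r := hpp ▸ Nat.minFac_dvd r
      have hpm : p ∣ m := hp.dvd_of_dvd_pow ((Dvd.intro r' hr'.symm).trans hd)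
      obtain ⟨q, hq⟩ := hpm
      have hr'0 : r' ≠ 0 := by
        intro h0; rw [h0, mul_zero] at hr'; exact hr0 hr'
      have hlt : r' < r := by
        rw [hr']
        have := hp.two_le
        have : 0 < r' := Nat.pos_of_ne_zero hr'0
        nlinarith
      have c := ih r' (by omega) hr'0 ((Dvd.intro_left p hr'.symm).trans hd)
      have c0 : CH ⟨Fin 1, fl m⟩ ⟨Fin 1, fl m⟩ (fl p) := by
        refine CH.single (X := ⟨Fin 1, fl m⟩) (Y := ⟨Fin 1, fl m⟩) _ (fl q) ?_ ?_
        · change fl m = _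
          rw [fl_mul, hq]
        · change fl m = _
          rw [fl_mul, hq, Nat.mul_comm]
      have c2 := c0.trans c
      rw [hr', ← fl_mul]
      exact c2

theorem rl11 (m m' : ℕ) (hm : 1 ≤ m) : Rl ⟨Fin 1, fl m⟩ ⟨Fin 1, fl m'⟩ := by
  intro l hl R S h1 h2 h3 h4
  change R * S = fl m ^ l at h1
  change fl m * R = R * fl m' at h3
  have e : R = fl (R 0 0) := by
    ext i j
    rw [Subsingleton.elim i 0, Subsingleton.elim j 0]
    rfl
  have e' : S = fl (S 0 0) := by
    ext i j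
    rw [Subsingleton.elim i 0, Subsingleton.elim j 0]
    rfl
  obtain ⟨r, hr⟩ : ∃ r, r = R 0 0 := ⟨_, rfl⟩
  obtain ⟨s, hs⟩ : ∃ s, s = S 0 0 := ⟨_, rfl⟩
  rw [← hr] at e
  rw [← hs] at e'
  rw [e, e', fl_mul, full_pow] at h1
  rw [e, fl_mul, fl_mul] at h3
  have e1 : r * s = m ^ l := congrFun (congrFun h1 0) 0
  have e3 : m * r = r * m' := congrFun (congrFun h3 0) 0
  have hR0 : r ≠ 0 := by
    intro h0
    rw [h0, zero_mul] at e1
    have : 0 < m ^ l := by positivity
    omega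
  have hmm : m = m' := by
    rw [Nat.mul_comm] at e3
    exact Nat.eq_of_mul_eq_mul_left (Nat.pos_of_ne_zero hR0) e3
  subst hmm
  refine ⟨0, ?_⟩
  have c := chain1 m l r r le_rfl hR0 ⟨s, e1.symm⟩
  change CH _ _ (fl m ^ 0 * R)
  rw [pow_zero, Matrix.one_mul, e]
  exact c

theorem rl22 (A B : M2) (hA : Hyp A) : Rl ⟨Fin 2, A⟩ ⟨Fin 2, B⟩ := by
  intro l hl R S h1 h2 h3 h4
  refine ⟨0, ?_⟩
  change CH _ _ (A ^ 0 * R)
  rw [pow_zero, Matrix.one_mul]
  exact uni (sm R) A B R S l le_rfl hl hA h1 h2 h3 h4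

theorem rl12 (m : ℕ) (B : M2) (hB : Hyp B) : Rl ⟨Fin 1, fl m⟩ ⟨Fin 2, B⟩ := by
  intro l hl R S h1 h2 h3 h4
  exfalso
  change S * R = B ^ l at h2
  apply dt_pow_ne hB l
  rw [← h2, dt_eq]
  have e : ∀ i j, (S * R) i j = S i 0 * R 0 j := by
    intro i j
    rw [Matrix.mul_apply]
    exact Fin.sum_univ_one _
  rw [e, e, e, e]
  push_cast
  ring

theorem rl21 (A : M2) (m : ℕ) (hA : Hyp A) : Rl ⟨Fin 2, A⟩ ⟨Fin 1, fl m⟩ := by
  intro l hl R S h1 h2 h3 h4
  exfalso
  change R * S = A ^ l at h1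
  apply dt_pow_ne hA l
  rw [← h1, dt_eq]
  have e : ∀ i j, (R * S) i j = R i 0 * S 0 j := by
    intro i j
    rw [Matrix.mul_apply]
    exact Fin.sum_univ_one _
  rw [e, e, e, e]
  push_cast
  ring

/-- full shifts and hyperbolic matrices of determinant ±1 -/
def PP12 (X : Obj) : Prop := P1 X ∨ P2 X

theorem fam12 : Fam PP12 where
  iso X α _ _ e h := h.imp (fun h => P1.iso e h) (fun h => P2.iso e h)
  bo X h := h.elim P1.bo (fun h => Or.inl h.big)

theorem rl12all (X Y : Obj) (hX : PP12 X) (hY : PP12 Y) : Rl X Y := by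
  rcases hX with ⟨e, m, hm, h⟩ | ⟨e, h⟩ <;> rcases hY with ⟨f, m', hm', h'⟩ | ⟨f, h'⟩
  · exact rl_iso e f X.M Y.M (by rw [h, h']; exact rl11 m m' hm)
  · exact rl_iso e f X.M Y.M (by rw [h]; exact rl12 m _ h')
  · exact rl_iso e f X.M Y.M (by rw [h']; exact rl21 _ m' h)
  · exact rl_iso e f X.M Y.M (rl22 _ _ h)

end Run7.h850.SS
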